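import Pool.Agent.Helper32_C4N.Eli5
import Pool.Agent.Helper32_C4N.Ite2
import Pool.Agent.Helper65_C4N.Pal

/-!
# C4N, module ELI: elimination of the edges of `E`
-/

set_option autoImplicit false

open scoped BigOperators Classical

noncomputable section

namespace Pool.Agent.C4N.H32

open Finset
open Pool.Agent.C4N

/-- ELI. -/
theorem eli (ins : INSStmt) (llb : LLBStmt) (edc : EDCStmt) : ELIStmt := by
  intro C1 c hc0 hc1
  obtain ⟨a0, ha0⟩ : ∃ a0 : ℝ, a0 = min (c / 2) (1 / 1000000) := ⟨_, rfl⟩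
  have ha0p : 0 < a0 := by
    rw [ha0]
    exact lt_min (by linarith) (by norm_num)
  have ha0c : a0 ≤ c / 2 := by rw [ha0]; exact min_le_left _ _
  have ha0m : a0 ≤ 1 / 1000000 := by rw [ha0]; exact min_le_right _ _
  obtain ⟨k1, hk1⟩ := ev_ge a0 ha0p (16384 * ((C1 : ℝ) + 1))
  refine ⟨max k1 (640000 * Nat.factorial 14), ?_⟩
  intro K n hK hn hlo hhi V _ R R' E F hc4 hR dec hR' hs1 hs2 hE hC hx hsep
  have hKk1 : k1 ≤ K := (le_max_left _ _).trans hK
  have hKf : 640000 * Nat.factorial 14 ≤ K := (le_max_right _ _).trans hK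
  obtain ⟨-, -, hexp⟩ := H65.num (c3 := 1 / 1000) (by norm_num) (le_refl _) hKf rfl
  have hK2 : 2 ≤ K := le_trans (by norm_num [Nat.factorial]) hKf
  obtain ⟨k, hk⟩ : ∃ k : ℝ, k = (K : ℝ) := ⟨_, rfl⟩
  obtain ⟨B, hB⟩ : ∃ B : ℝ, B = 16384 * ((C1 : ℝ) + 1) := ⟨_, rfl⟩
  have hC10 : (0 : ℝ) ≤ C1 := Nat.cast_nonneg _
  have hB1 : 16384 ≤ B := by rw [hB]; linarith
  have hB0 : 0 < B := by linarith
  have hk2 : (2 : ℝ) ≤ k := by rw [hk]; exact_mod_cast hK2
  have hk1' : (1 : ℝ) ≤ k := by linarith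
  have hk0 : (0 : ℝ) < k := by linarith
  have hBk : B ≤ k ^ a0 := by
    rw [hB, hk]
    exact hk1 K hKk1
  have hpow : ∀ a : ℝ, a0 ≤ a → B ≤ k ^ a := fun a ha =>
    hBk.trans (Real.rpow_le_rpow_of_exponent_le hk1' ha)
  have hdn : ∀ a : ℝ, a0 ≤ a → k ^ (1 - a) * B ≤ k := by
    intro a ha
    calc k ^ (1 - a) * B ≤ k ^ (1 - a) * k ^ a :=
          mul_le_mul_of_nonneg_left (hpow a ha) (Real.rpow_nonneg hk0.le _)
      _ = k := by
          rw [← Real.rpow_add hk0]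
          simp
  have hdn' : ∀ a : ℝ, a0 ≤ a → k ^ (1 - a) * 16384 ≤ k := by
    intro a ha
    exact (mul_le_mul_of_nonneg_left hB1 (Real.rpow_nonneg hk0.le _)).trans (hdn a ha)
  -- the new number
  obtain ⟨k', hk'⟩ : ∃ k' : ℝ, k' = ((K - n : ℕ) : ℝ) := ⟨_, rfl⟩
  rw [← hk', ← hk] at hlo hhi
  have hnk : (n : ℝ) = k - k' := by
    rw [hk', hk, Nat.cast_sub hn]
    ring
  have hk'B : B ≤ k' := (hpow (1 - 1 / 9000) (by linarith)).trans hlo
  have hk'1 : (1 : ℝ) ≤ k' := by linarith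
  have hk'0 : (0 : ℝ) < k' := by linarith
  have hk's : k' * 16384 ≤ k := by
    have h1 := hdn' (1 / 11000) (by linarith)
    linarith
  have hn1 : 1 ≤ n := by
    by_contra h0
    have h1 : n = 0 := by omega
    rw [h1, Nat.cast_zero] at hnk
    linarith
  -- the density of the palette
  obtain ⟨q, hq⟩ : ∃ q : ℕ, q = ⌈k ^ (1 / 1000000 : ℝ)⌉₊ := ⟨_, rfl⟩
  have hq1 : k ^ (1 / 1000000 : ℝ) ≤ q := by rw [hq]; exact Nat.le_ceil _
  have hqB : B ≤ q := (hpow _ ha0m).trans hq1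
  have hq0 : (0 : ℝ) < q := by linarith
  have hqn : 1 ≤ q := by
    have : (1 : ℝ) ≤ q := by linarith
    exact_mod_cast this
  have hq2 : (q : ℝ) ≤ 2 * k ^ (1 / 1000000 : ℝ) := by
    have h1 : (q : ℝ) < k ^ (1 / 1000000 : ℝ) + 1 := by
      rw [hq]
      exact Nat.ceil_lt_add_one (Real.rpow_nonneg hk0.le _)
    have h2 : (1 : ℝ) ≤ k ^ (1 / 1000000 : ℝ) := Real.one_le_rpow hk1' (by norm_num)
    linarith
  have hq4 : (q : ℝ) ^ 4 ≤ 16 * k ^ (4 / 1000000 : ℝ) := by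
    calc (q : ℝ) ^ 4 ≤ (2 * k ^ (1 / 1000000 : ℝ)) ^ 4 := pow_le_pow_left₀ hq0.le hq2 4
      _ = 16 * (k ^ (1 / 1000000 : ℝ)) ^ (4 : ℕ) := by ring
      _ = 16 * k ^ (4 / 1000000 : ℝ) := by
          rw [← Real.rpow_natCast, ← Real.rpow_mul hk0.le]
          norm_num
  have hsq : √k ≤ k / (16 * (q : ℝ) ^ 4) := by
    rw [le_div_iff₀ (by positivity), Real.sqrt_eq_rpow]
    have h1 := hdn (1 / 2 - 4 / 1000000) (by linarith)
    calc k ^ (1 / 2 : ℝ) * (16 * (q : ℝ) ^ 4) ≤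
          k ^ (1 / 2 : ℝ) * (16 * (16 * k ^ (4 / 1000000 : ℝ))) := by
          gcongr
      _ = k ^ (1 / 2 : ℝ) * k ^ (4 / 1000000 : ℝ) * 256 := by ring
      _ = k ^ (1 - (1 / 2 - 4 / 1000000) : ℝ) * 256 := by
          rw [← Real.rpow_add hk0]
          norm_num
      _ ≤ k ^ (1 - (1 / 2 - 4 / 1000000) : ℝ) * B := by
          gcongr
          linarith
      _ ≤ k := h1
  have hsk : √k * 80 ≤ k' := by
    rw [Real.sqrt_eq_rpow]
    calc k ^ (1 / 2 : ℝ) * 80 ≤ k ^ (1 / 2 : ℝ) * k ^ (1 / 2 - 1 / 9000 : ℝ) := by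
          gcongr
          have := hpow (1 / 2 - 1 / 9000) (by linarith)
          linarith
      _ = k ^ (1 - 1 / 9000 : ℝ) := by
          rw [← Real.rpow_add hk0]
          norm_num
      _ ≤ k' := hlo
  have hR'd : ∀ v, (dg R' v : ℝ) ≤ 4 * k' := by
    intro v
    have h1 := (hR' v).2
    have h2 : (dg R' v : ℝ) ≤ 2 * ((K - n : ℕ) : ℝ) + 2 := by exact_mod_cast h1
    rw [← hk'] at h2
    linarith
  -- number of classes
  have hcount : ∀ x y, (R' ⊓ E).Adj x y → (K : ℝ) / 2 ≤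
      (univ.filter fun i => I0 R R' E F (K - n) x y i).card := by
    intro x y hxy
    have h1 := i0_bad (E := E) hc4 dec hn (fun v => (hR v).1) (fun v => (hR' v).2) hxy.ne
      hs1 hx hE
    refine le_trans ?_ h1
    rw [hnk, ← hk]
    have h2 := hdn' c (by linarith)
    have h3 := hdn' (1 / 50000) (by linarith)
    have h4 := hdn' (1 - 1 / 50000) (by linarith)
    have h5 := hdn' 1 (by linarith)
    rw [sub_self, Real.rpow_zero] at h5
    rw [show (1 - (1 - 1 / 50000) : ℝ) = 1 / 50000 by norm_num] at h4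
    linarith
  obtain ⟨Pal, hP1, hP2⟩ := pal4 llb edc R R' (K := K) (n := n) (q := q) (by omega) hqn
    (fun v => by have := (hR v).2; omega) (dec_R' dec)
    (fun x y => (R' ⊓ E).Adj x y) (fun x y h => dec_R' dec h.1)
    (fun x y => univ.filter fun i => I0 R R' E F (K - n) x y i) (Bk F)
    (fun x y _ i hi => bk_card dec (mem_filter.1 hi).2)
    (fun x y _ i hi j _ hij => bk_dj dec (mem_filter.1 hi).2 hij)
    (fun x y _ i _ z hz => by
      rcases (mem_filter.1 hz).2 with h | h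
      · exact Or.inl (dec_F dec i h)
      · exact Or.inr (dec_F dec i h))
    hcount hexp (by rw [← hk]; exact hsq) (k' / 40) (fun v => by
      rw [← hk]
      have h1 : (dg R' v : ℝ) / q ≤ k' / 4096 := by
        rw [div_le_iff₀ hq0]
        have h2 := hR'd v
        have h3 : (16384 : ℝ) ≤ q := hB1.trans hqB
        calc (dg R' v : ℝ) ≤ 4 * k' := h2
          _ = k' / 4096 * 16384 := by ring
          _ ≤ k' / 4096 * q := by gcongr
      linarith)
  -- the classes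
  obtain ⟨t, ht⟩ : ∃ t : ℕ, t = ⌈k / (4 * (q : ℝ) ^ 4)⌉₊ := ⟨_, rfl⟩
  have ht1 : k / (4 * (q : ℝ) ^ 4) ≤ t := by rw [ht]; exact Nat.le_ceil _
  have htp : 1 ≤ t := by
    rw [ht]
    exact Nat.one_le_iff_ne_zero.2 (Nat.ceil_pos.2 (by positivity)).ne'
  obtain ⟨κ, hκ, hκ2⟩ := kap_ex (E := E) (K' := K - n) (t := t)
    (m0 := ⌊2 * k ^ (1 - 1 / 50000 : ℝ)⌋₊) (C1 := C1) dec hn1 htp Pal
    (by
      intro x y hxy
      rw [ht]
      refine Nat.ceil_le.2 ?_
      have h1 := hP2 x y hxy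
      rw [filter_filter, ← hk] at h1
      exact h1)
    (by
      intro z
      apply Nat.le_floor
      rw [flt_card, hk]
      exact hx z)
    hC
    (by
      have h1 : ((⌊2 * k ^ (1 - 1 / 50000 : ℝ)⌋₊ : ℕ) : ℝ) ≤ 2 * k ^ (1 - 1 / 50000 : ℝ) :=
        Nat.floor_le (by positivity)
      have h2 : (256 * C1 * k ^ (1 - 1 / 50000 : ℝ) : ℝ) ≤ k / (4 * (q : ℝ) ^ 4) := by
        rw [le_div_iff₀ (by positivity)]
        have h3 := hdn (1 / 50000 - 4 / 1000000) (by linarith)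
        calc 256 * C1 * k ^ (1 - 1 / 50000 : ℝ) * (4 * (q : ℝ) ^ 4) ≤
              256 * C1 * k ^ (1 - 1 / 50000 : ℝ) * (4 * (16 * k ^ (4 / 1000000 : ℝ))) := by
              gcongr
          _ = 16384 * C1 * (k ^ (1 - 1 / 50000 : ℝ) * k ^ (4 / 1000000 : ℝ)) := by ring
          _ = 16384 * C1 * k ^ (1 - (1 / 50000 - 4 / 1000000) : ℝ) := by
              rw [← Real.rpow_add hk0]
              norm_num
          _ ≤ B * k ^ (1 - (1 / 50000 - 4 / 1000000) : ℝ) := by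
              gcongr
              rw [hB]
              linarith
          _ = k ^ (1 - (1 / 50000 - 4 / 1000000) : ℝ) * B := mul_comm _ _
          _ ≤ k := h3
      have h3 : ((32 * (4 * (⌊2 * k ^ (1 - 1 / 50000 : ℝ)⌋₊ * C1)) : ℕ) : ℝ) ≤ t := by
        push_cast
        calc (32 * (4 * ((⌊2 * k ^ (1 - 1 / 50000 : ℝ)⌋₊ : ℕ) * C1)) : ℝ) ≤
              32 * (4 * ((2 * k ^ (1 - 1 / 50000 : ℝ)) * C1)) := by gcongr
          _ = 256 * C1 * k ^ (1 - 1 / 50000 : ℝ) := by ring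
          _ ≤ _ := h2.trans ht1
      exact_mod_cast h3)
  refine fin_step ins (C1 := C1) (Pal := {u | u ∈ Pal}) dec hκ ?_ hR' hsep hC ?_
  · intro x y z hxy hz
    have h1 := hκ2 x y hxy
    have h2 := h1.1.1.2 z hz
    exact ⟨h2.1, h2.2.2, h1.2 (mem_filter.2 ⟨mem_univ _, Or.inl hz⟩)⟩
  · intro v
    have h1 := hs2 v
    have h2 := hP1 v
    rw [← hk'] at h1
    have h3 : k' ^ (1 - c) * 40 ≤ k' := by
      have h4 : B ≤ k' ^ c := by
        calc B ≤ k ^ ((1 - 1 / 9000 : ℝ) * c) := hpow _ (by linarith)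
          _ = (k ^ (1 - 1 / 9000 : ℝ)) ^ c := Real.rpow_mul hk0.le _ _
          _ ≤ k' ^ c := Real.rpow_le_rpow (Real.rpow_nonneg hk0.le _) hlo hc0.le
      calc k' ^ (1 - c) * 40 ≤ k' ^ (1 - c) * k' ^ c := by
            gcongr
            linarith
        _ = k' := by
            rw [← Real.rpow_add hk'0]
            simp
    have h4 : (10 * ({u | R'.Adj v u ∧ dg R' u ≠ 2 * (K - n)}.ncard +
        {u | R'.Adj v u ∧ u ∈ Pal}.ncard + (C1 + 1)) : ℝ) ≤ ((K - n : ℕ) : ℝ) := by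
      rw [← hk']
      have h5 : 16384 * ((C1 : ℝ) + 1) ≤ k' := by rw [← hB]; exact hk'B
      linarith
    exact_mod_cast h4

end Pool.Agent.C4N.H32
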