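import Pool.Agent.C4N.Stm2

/-!
# C4N, module ELI, part 1: the exchange steps, one after the other
-/

set_option autoImplicit false

open scoped Classical

noncomputable section

namespace Pool.Agent.C4N.H32

open Pool.Agent.C4N

variable {V : Type} {n : ℕ}

/-- edges which leave the class `i` -/
def Rem (S : Finset (Sym2 V)) (κ : V → V → Fin n) (ν : V → V → V) (i : Fin n) (u v : V) : Prop :=
  ∃ w, s(u, w) ∈ S ∧ κ u w = i ∧ v = ν u w

/-- the classes after the exchange steps -/
def FS (F : Fin n → SimpleGraph V) (S : Finset (Sym2 V)) (κ : V → V → Fin n) (ν : V → V → V)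
    (i : Fin n) : SimpleGraph V where
  Adj u v := ((F i).Adj u v ∧ ¬ Rem S κ ν i u v ∧ ¬ Rem S κ ν i v u) ∨
    (u ≠ v ∧ s(u, v) ∈ S ∧ κ u v = i ∧ κ v u = i)
  symm := ⟨fun u v h => by
    rcases h with ⟨h1, h2, h3⟩ | ⟨h1, h2, h3, h4⟩
    · exact Or.inl ⟨h1.symm, h3, h2⟩
    · exact Or.inr ⟨h1.symm, by rw [Sym2.eq_swap]; exact h2, h4, h3⟩⟩
  loopless := ⟨fun u h => by
    rcases h with ⟨h1, -⟩ | ⟨h1, -⟩
    · exact h1.ne rfl
    · exact h1 rfl⟩

/-- the choice of the classes of the edges of `B` -/
structure Kap (B : SimpleGraph V) (F : Fin n → SimpleGraph V) (κ : V → V → Fin n) : Prop where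
  sy : ∀ u v, κ u v = κ v u
  lf : ∀ i, LF (F i)
  dj : ∀ i u v, B.Adj u v → ¬ (F i).Adj u v
  ok : ∀ x y z w, B.Adj x y → (F (κ x y)).Adj x z → ¬ B.Adj z w
  two : ∀ x y, B.Adj x y → dg (F (κ x y)) x = 2
  one : ∀ x y x' y' z, B.Adj x y → B.Adj x' y' → (F (κ x y)).Adj x z →
    (F (κ x' y')).Adj x' z → x = x' ∧ y = y'

theorem Kap.nb {B : SimpleGraph V} {F : Fin n → SimpleGraph V} {κ : V → V → Fin n}
    (h : Kap B F κ) {x y : V} (hxy : B.Adj x y) :
    ∃ a1 a2, a1 ≠ a2 ∧ ∀ z, (F (κ x y)).Adj x z ↔ z = a1 ∨ z = a2 := by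
  have h1 := h.two x y hxy
  rw [dg, Set.ncard_eq_two] at h1
  obtain ⟨a1, a2, h2, h3⟩ := h1
  refine ⟨a1, a2, h2, fun z => ?_⟩
  rw [← SimpleGraph.mem_neighborSet, h3]
  simp

theorem Kap.inj {B : SimpleGraph V} {F : Fin n → SimpleGraph V} {κ : V → V → Fin n}
    (h : Kap B F κ) {x y y' : V} (hxy : B.Adj x y) (hxy' : B.Adj x y') (hκ : κ x y = κ x y') :
    y = y' := by
  obtain ⟨a1, a2, -, ha⟩ := h.nb hxy
  have h1 : (F (κ x y)).Adj x a1 := (ha a1).mpr (Or.inl rfl)
  exact (h.one x y x y' a1 hxy hxy' h1 (by rw [← hκ]; exact h1)).2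

/-- the exchange steps -/
theorem seq_ins (ins : INSStmt) [Fintype V] {B : SimpleGraph V} {F : Fin n → SimpleGraph V}
    {κ : V → V → Fin n} (h : Kap B F κ) : ∀ S : Finset (Sym2 V), (∀ e ∈ S, e ∈ B.edgeSet) →
    ∃ ν : V → V → V, (∀ x y, s(x, y) ∈ S → (F (κ x y)).Adj x (ν x y)) ∧
      ∀ i, LF (FS F S κ ν i) := by
  intro S
  induction S using Finset.induction_on with
  | empty =>
    intro _
    refine ⟨fun x _ => x, fun x y hxy => absurd hxy (Finset.notMem_empty _), fun i => ?_⟩
    have : FS F ∅ κ (fun x _ => x) i = F i := by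
      ext u v
      simp [FS, Rem]
    rw [this]
    exact h.lf i
  | insert e S he ih =>
    intro hS
    obtain ⟨ν, hν, hLF⟩ := ih fun e' he' => hS e' (Finset.mem_insert_of_mem he')
    induction e using Sym2.inductionOn with
    | hf x y =>
    have hxy : B.Adj x y := hS _ (Finset.mem_insert_self _ _)
    have hyx : B.Adj y x := hxy.symm
    have hSB : ∀ {u v}, s(u, v) ∈ S → B.Adj u v := fun hu => hS _ (Finset.mem_insert_of_mem hu)
    have he' : s(y, x) ∉ S := by rw [Sym2.eq_swap]; exact he
    have hκ : κ y x = κ x y := h.sy y x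
    -- the neighbours of `x` and `y` in the current class
    have hadj : ∀ p w, B.Adj p w → s(p, w) ∉ S → ∀ z,
        (FS F S κ ν (κ p w)).Adj p z ↔ (F (κ p w)).Adj p z := by
      intro p w hpw hpS z
      constructor
      · rintro (⟨h1, -⟩ | ⟨-, h2, h3, -⟩)
        · exact h1
        · exfalso
          have := h.inj hpw (hSB h2) h3.symm
          rw [this] at hpS
          exact hpS h2
      · intro h1
        refine Or.inl ⟨h1, ?_, ?_⟩
        · rintro ⟨w', hw', hκ', -⟩
          have := h.inj hpw (hSB hw') hκ'.symm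
          rw [this] at hpS
          exact hpS hw'
        · rintro ⟨w', hw', -, -⟩
          exact h.ok p w z w' hpw h1 (hSB hw')
    obtain ⟨a1, a2, ha12, ha⟩ := h.nb hxy
    obtain ⟨b1, b2, hb12, hb⟩ := h.nb hyx
    rw [hκ] at hb
    have hane : ∀ a b, (F (κ x y)).Adj x a → (F (κ x y)).Adj y b → a ≠ b := by
      rintro a b h1 h2 rfl
      exact hxy.ne (h.one x y y x a hxy hyx h1 (by rw [hκ]; exact h2)).1
    have hx' := hadj x y hxy he
    have hy' := hadj y x hyx he'
    rw [hκ] at hy'
    obtain ⟨a, b, haa, hbb, hL⟩ := ins V (FS F S κ ν (κ x y)) x y a1 a2 b1 b2 (hLF _) hxy.ne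
      (fun h1 => h.dj _ x y hxy ((hx' y).mp h1)) ha12 hb12
      (hane _ _ ((ha a1).mpr (Or.inl rfl)) ((hb b1).mpr (Or.inl rfl)))
      (hane _ _ ((ha a1).mpr (Or.inl rfl)) ((hb b2).mpr (Or.inr rfl)))
      (hane _ _ ((ha a2).mpr (Or.inr rfl)) ((hb b1).mpr (Or.inl rfl)))
      (hane _ _ ((ha a2).mpr (Or.inr rfl)) ((hb b2).mpr (Or.inr rfl)))
      (fun z => (hx' z).trans (ha z)) (fun z => (hy' z).trans (hb z))
    have haF : (F (κ x y)).Adj x a := (ha a).mpr haa
    have hbF : (F (κ x y)).Adj y b := (hb b).mpr hbb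
    refine ⟨fun u w => if u = x ∧ w = y then a else if u = y ∧ w = x then b else ν u w, ?_, ?_⟩
    · intro u w huw
      beta_reduce
      by_cases h1 : u = x ∧ w = y
      · rw [if_pos h1, h1.1, h1.2]
        exact haF
      · rw [if_neg h1]
        by_cases h2 : u = y ∧ w = x
        · rw [if_pos h2, h2.1, h2.2, hκ]
          exact hbF
        · rw [if_neg h2]
          apply hν
          rcases Finset.mem_insert.mp huw with h3 | h3
          · rcases Sym2.eq_iff.mp h3 with h4 | h4
            · exact absurd h4 h1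
            · exact absurd h4 h2
          · exact h3
    · intro i
      -- the sets of removed edges
      have hRem : ∀ u v, Rem (insert s(x, y) S) κ
          (fun u w => if u = x ∧ w = y then a else if u = y ∧ w = x then b else ν u w) i u v ↔
          Rem S κ ν i u v ∨ (i = κ x y ∧ ((u = x ∧ v = a) ∨ (u = y ∧ v = b))) := by
        intro u v
        constructor
        · rintro ⟨w, hw, hκw, hv⟩
          beta_reduce at hv
          by_cases h1 : u = x ∧ w = y
          · rw [if_pos h1] at hv
            rw [h1.1, h1.2] at hκw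
            exact Or.inr ⟨hκw.symm, Or.inl ⟨h1.1, hv⟩⟩
          · rw [if_neg h1] at hv
            by_cases h2 : u = y ∧ w = x
            · rw [if_pos h2] at hv
              rw [h2.1, h2.2, hκ] at hκw
              exact Or.inr ⟨hκw.symm, Or.inr ⟨h2.1, hv⟩⟩
            · rw [if_neg h2] at hv
              refine Or.inl ⟨w, ?_, hκw, hv⟩
              rcases Finset.mem_insert.mp hw with h3 | h3
              · rcases Sym2.eq_iff.mp h3 with h4 | h4
                · exact absurd h4 h1
                · exact absurd h4 h2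
              · exact h3
        · rintro (⟨w, hw, hκw, hv⟩ | ⟨hi, h1 | h1⟩)
          · refine ⟨w, Finset.mem_insert_of_mem hw, hκw, ?_⟩
            have h1 : ¬ (u = x ∧ w = y) := by
              rintro ⟨rfl, rfl⟩
              exact he hw
            have h2 : ¬ (u = y ∧ w = x) := by
              rintro ⟨rfl, rfl⟩
              exact he' hw
            beta_reduce
            rw [if_neg h1, if_neg h2]
            exact hv
          · refine ⟨y, ?_, ?_, ?_⟩
            · rw [h1.1]; exact Finset.mem_insert_self _ _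
            · rw [h1.1, hi]
            · beta_reduce; rw [if_pos ⟨h1.1, rfl⟩]; exact h1.2
          · refine ⟨x, ?_, ?_, ?_⟩
            · rw [h1.1, Sym2.eq_swap]; exact Finset.mem_insert_self _ _
            · rw [h1.1, hi, hκ]
            · beta_reduce; rw [if_neg (fun h3 => hxy.ne h3.2), if_pos ⟨h1.1, rfl⟩]; exact h1.2
      by_cases hi : i = κ x y
      · have hG : FS F (insert s(x, y) S) κ
            (fun u w => if u = x ∧ w = y then a else if u = y ∧ w = x then b else ν u w) i =
            ((FS F S κ ν (κ x y) ⊔ SimpleGraph.edge x y) \ SimpleGraph.edge x a) \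
              SimpleGraph.edge y b := by
          rw [← hi] at hx' hy' haF hbF ⊢
          have hax : a ≠ x := haF.ne'
          have hby : b ≠ y := hbF.ne'
          have hay : a ≠ y := by
            rintro rfl
            exact h.dj _ _ _ hxy haF
          have hbx : b ≠ x := by
            rintro rfl
            exact h.dj _ _ _ hyx hbF
          ext u v
          simp only [SimpleGraph.sdiff_adj, SimpleGraph.sup_adj, SimpleGraph.edge_adj]
          have hFS : (FS F (insert s(x, y) S) κ (fun u w => if u = x ∧ w = y then a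
              else if u = y ∧ w = x then b else ν u w) i).Adj u v ↔
              ((F i).Adj u v ∧ ¬ (Rem S κ ν i u v ∨ (i = κ x y ∧ ((u = x ∧ v = a) ∨
                (u = y ∧ v = b)))) ∧ ¬ (Rem S κ ν i v u ∨ (i = κ x y ∧ ((v = x ∧ u = a) ∨
                (v = y ∧ u = b))))) ∨ (u ≠ v ∧ s(u, v) ∈ insert s(x, y) S ∧ κ u v = i ∧
                κ v u = i) := by
            rw [← hRem, ← hRem]
            exact Iff.rfl
          rw [hFS]
          have hFS2 : (FS F S κ ν i).Adj u v ↔ ((F i).Adj u v ∧ ¬ Rem S κ ν i u v ∧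
              ¬ Rem S κ ν i v u) ∨ (u ≠ v ∧ s(u, v) ∈ S ∧ κ u v = i ∧ κ v u = i) := Iff.rfl
          rw [hFS2]
          -- an edge of `S` is different from `x a`, `y b`
          have hSne : ∀ p c w, B.Adj p w → κ p w = i → (F i).Adj p c → ∀ u v, s(u, v) ∈ S →
              ¬ (u = p ∧ v = c) ∧ ¬ (u = c ∧ v = p) := by
            intro p c w hpw hpi hpc u v huv
            constructor
            · rintro ⟨rfl, rfl⟩
              exact h.dj _ _ _ (hSB huv) hpc
            · rintro ⟨rfl, rfl⟩
              exact h.dj _ _ _ (hSB huv) hpc.symm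
          have hs1 := hSne x a y hxy hi.symm haF u v
          have hs2 := hSne y b x hyx (hκ.trans hi.symm) hbF u v
          constructor
          · rintro (⟨h1, h2, h3⟩ | ⟨h1, h2, h3, h4⟩)
            · push Not at h2 h3
              have h2' := h2.2 hi
              have h3' := h3.2 hi
              refine ⟨⟨Or.inl (Or.inl ⟨h1, h2.1, h3.1⟩), ?_⟩, ?_⟩
              · rintro ⟨⟨h5, h6⟩ | ⟨h5, h6⟩, -⟩
                · exact h2'.1 h5 h6
                · exact h3'.1 h6 h5
              · rintro ⟨⟨h5, h6⟩ | ⟨h5, h6⟩, -⟩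
                · exact h2'.2 h5 h6
                · exact h3'.2 h6 h5
            · rcases Finset.mem_insert.mp h2 with h5 | h5
              · have h6 : (u = x ∧ v = y) ∨ (u = y ∧ v = x) := Sym2.eq_iff.mp h5
                refine ⟨⟨Or.inr ⟨h6, h1⟩, ?_⟩, ?_⟩
                · rintro ⟨⟨h7, h8⟩ | ⟨h7, h8⟩, -⟩
                  · rcases h6 with ⟨h9, h10⟩ | ⟨h9, h10⟩
                    · exact hay (h8.symm.trans h10)
                    · exact hxy.ne (h7.symm.trans h9)
                  · rcases h6 with ⟨h9, h10⟩ | ⟨h9, h10⟩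
                    · exact hax (h7.symm.trans h9)
                    · exact hay (h7.symm.trans h9)
                · rintro ⟨⟨h7, h8⟩ | ⟨h7, h8⟩, -⟩
                  · rcases h6 with ⟨h9, h10⟩ | ⟨h9, h10⟩
                    · exact hxy.ne (h9.symm.trans h7)
                    · exact hbx (h8.symm.trans h10)
                  · rcases h6 with ⟨h9, h10⟩ | ⟨h9, h10⟩
                    · exact hbx (h7.symm.trans h9)
                    · exact hby (h7.symm.trans h9)
              · refine ⟨⟨Or.inl (Or.inr ⟨h1, h5, h3, h4⟩), ?_⟩, ?_⟩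
                · rintro ⟨h6 | h6, -⟩
                  · exact (hs1 h5).1 h6
                  · exact (hs1 h5).2 h6
                · rintro ⟨h6 | h6, -⟩
                  · exact (hs2 h5).1 h6
                  · exact (hs2 h5).2 h6
          · rintro ⟨⟨h1, h2⟩, h3⟩
            rcases h1 with (⟨h1, h4, h5⟩ | ⟨h1, h4, h5, h6⟩) | ⟨h1, h4⟩
            · refine Or.inl ⟨h1, ?_, ?_⟩
              · rintro (h6 | ⟨-, ⟨h6, h7⟩ | ⟨h6, h7⟩⟩)
                · exact h4 h6
                · exact h2 ⟨Or.inl ⟨h6, h7⟩, h1.ne⟩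
                · exact h3 ⟨Or.inl ⟨h6, h7⟩, h1.ne⟩
              · rintro (h6 | ⟨-, ⟨h6, h7⟩ | ⟨h6, h7⟩⟩)
                · exact h5 h6
                · exact h2 ⟨Or.inr ⟨h7, h6⟩, h1.ne⟩
                · exact h3 ⟨Or.inr ⟨h7, h6⟩, h1.ne⟩
            · exact Or.inr ⟨h1, Finset.mem_insert_of_mem h4, h5, h6⟩
            · refine Or.inr ⟨h4, ?_, ?_, ?_⟩
              · rw [Finset.mem_insert]
                exact Or.inl (Sym2.eq_iff.mpr h1)
              · rcases h1 with ⟨rfl, rfl⟩ | ⟨rfl, rfl⟩
                · exact hi.symm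
                · exact hκ.trans hi.symm
              · rcases h1 with ⟨rfl, rfl⟩ | ⟨rfl, rfl⟩
                · exact hκ.trans hi.symm
                · exact hi.symm
        rw [hG]
        exact hL
      · have hG : FS F (insert s(x, y) S) κ
            (fun u w => if u = x ∧ w = y then a else if u = y ∧ w = x then b else ν u w) i =
            FS F S κ ν i := by
          ext u v
          have hFS : (FS F (insert s(x, y) S) κ (fun u w => if u = x ∧ w = y then a
              else if u = y ∧ w = x then b else ν u w) i).Adj u v ↔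
              ((F i).Adj u v ∧ ¬ (Rem S κ ν i u v ∨ (i = κ x y ∧ ((u = x ∧ v = a) ∨
                (u = y ∧ v = b)))) ∧ ¬ (Rem S κ ν i v u ∨ (i = κ x y ∧ ((v = x ∧ u = a) ∨
                (v = y ∧ u = b))))) ∨ (u ≠ v ∧ s(u, v) ∈ insert s(x, y) S ∧ κ u v = i ∧
                κ v u = i) := by
            rw [← hRem, ← hRem]
            exact Iff.rfl
          rw [hFS]
          have hFS2 : (FS F S κ ν i).Adj u v ↔ ((F i).Adj u v ∧ ¬ Rem S κ ν i u v ∧
              ¬ Rem S κ ν i v u) ∨ (u ≠ v ∧ s(u, v) ∈ S ∧ κ u v = i ∧ κ v u = i) := Iff.rfl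
          rw [hFS2]
          constructor
          · rintro (⟨h1, h2, h3⟩ | ⟨h1, h2, h3, h4⟩)
            · exact Or.inl ⟨h1, fun h5 => h2 (Or.inl h5), fun h5 => h3 (Or.inl h5)⟩
            · rcases Finset.mem_insert.mp h2 with h5 | h5
              · exfalso
                apply hi
                rcases Sym2.eq_iff.mp h5 with ⟨rfl, rfl⟩ | ⟨rfl, rfl⟩
                · exact h3.symm
                · exact h4.symm
              · exact Or.inr ⟨h1, h5, h3, h4⟩
          · rintro (⟨h1, h2, h3⟩ | ⟨h1, h2, h3, h4⟩)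
            · refine Or.inl ⟨h1, ?_, ?_⟩
              · rintro (h5 | ⟨h5, -⟩)
                · exact h2 h5
                · exact hi h5
              · rintro (h5 | ⟨h5, -⟩)
                · exact h3 h5
                · exact hi h5
            · exact Or.inr ⟨h1, Finset.mem_insert_of_mem h2, h3, h4⟩
        rw [hG]
        exact hLF i

end Pool.Agent.C4N.H32
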