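import Pool.Agent.Helper32_C4N.Eli1

/-!
# C4N, module ELI, part 2: the rest after the exchange steps
-/

set_option autoImplicit false

open scoped Classical

noncomputable section

namespace Pool.Agent.C4N.H32

open Pool.Agent.C4N

variable {V : Type} {n : ℕ}

/-- edges which return to the rest -/
def Nw (B : SimpleGraph V) (ν : V → V → V) (u v : V) : Prop := ∃ w, B.Adj u w ∧ v = ν u w

/-- the rest after the exchange steps -/
def RR (R' E : SimpleGraph V) (ν : V → V → V) : SimpleGraph V where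
  Adj u v := u ≠ v ∧ ((R'.Adj u v ∧ ¬ E.Adj u v) ∨ Nw (R' ⊓ E) ν u v ∨ Nw (R' ⊓ E) ν v u)
  symm := ⟨fun u v h => by
    refine ⟨h.1.symm, ?_⟩
    rcases h.2 with h1 | h1 | h1
    · exact Or.inl ⟨h1.1.symm, fun h2 => h1.2 h2.symm⟩
    · exact Or.inr (Or.inr h1)
    · exact Or.inr (Or.inl h1)⟩
  loopless := ⟨fun u h => h.1 rfl⟩

section deg

variable [Fintype V] {R' E : SimpleGraph V} {F : Fin n → SimpleGraph V}
  {κ : V → V → Fin n} {ν : V → V → V}

theorem nw_F (hν : ∀ x y, (R' ⊓ E).Adj x y → (F (κ x y)).Adj x (ν x y)) {u v : V}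
    (h : Nw (R' ⊓ E) ν u v) : ∃ w, (R' ⊓ E).Adj u w ∧ (F (κ u w)).Adj u v := by
  obtain ⟨w, hw, rfl⟩ := h
  exact ⟨w, hw, hν u w hw⟩

theorem dg_RR (hK : Kap (R' ⊓ E) F κ) (d1 : ∀ i, Disjoint R' (F i))
    (hν : ∀ x y, (R' ⊓ E).Adj x y → (F (κ x y)).Adj x (ν x y)) (v : V) :
    dg (RR R' E ν) v = dg R' v + if (∃ u, Nw (R' ⊓ E) ν u v) then 1 else 0 := by
  have hdis : ∀ i u w, R'.Adj u w → ¬ (F i).Adj u w := by
    intro i u w h1 h2
    have h3 := (d1 i).le_bot (show (R' ⊓ F i).Adj u w from ⟨h1, h2⟩)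
    exact h3
  by_cases hB : ∃ w, (R' ⊓ E).Adj v w
  · obtain ⟨w0, hw0⟩ := hB
    have hno : ¬ ∃ u, Nw (R' ⊓ E) ν u v := by
      rintro ⟨u, hu⟩
      obtain ⟨w, hw1, hw2⟩ := nw_F hν hu
      exact hK.ok u w v w0 hw1 hw2 hw0
    rw [if_neg hno, add_zero]
    have hset : (RR R' E ν).neighborSet v =
        (R'.neighborSet v \ (R' ⊓ E).neighborSet v) ∪ (ν v '' (R' ⊓ E).neighborSet v) := by
      ext u
      simp only [SimpleGraph.mem_neighborSet, Set.mem_union, Set.mem_sdiff, Set.mem_image]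
      constructor
      · rintro ⟨h1, h2 | ⟨w, h2, h3⟩ | h2⟩
        · exact Or.inl ⟨h2.1, fun h3 => h2.2 h3.2⟩
        · exact Or.inr ⟨w, h2, h3.symm⟩
        · exact absurd ⟨u, h2⟩ hno
      · rintro (⟨h1, h2⟩ | ⟨w, h1, h2⟩)
        · exact ⟨h1.ne, Or.inl ⟨h1, fun h3 => h2 ⟨h1, h3⟩⟩⟩
        · refine ⟨?_, Or.inr (Or.inl ⟨w, h1, h2.symm⟩)⟩
          rw [← h2]
          exact (hν v w h1).ne
    have hinj : Set.InjOn (ν v) ((R' ⊓ E).neighborSet v) := by
      intro w hw w' hw' he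
      have h1 := hν v w hw
      have h2 := hν v w' hw'
      rw [← he] at h2
      exact (hK.one v w v w' _ hw hw' h1 h2).2
    have hdj : Disjoint (R'.neighborSet v \ (R' ⊓ E).neighborSet v)
        (ν v '' (R' ⊓ E).neighborSet v) := by
      rw [Set.disjoint_left]
      rintro u ⟨hu, -⟩ ⟨w, hw, rfl⟩
      exact hdis _ _ _ hu (hν v w hw)
    have hsub : (R' ⊓ E).neighborSet v ⊆ R'.neighborSet v := fun u hu => hu.1
    rw [dg, dg, hset, Set.ncard_union_eq hdj (Set.toFinite _) (Set.toFinite _),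
      Set.ncard_image_of_injOn hinj, Set.ncard_sdiff hsub (Set.toFinite _)]
    have := Set.ncard_le_ncard hsub (Set.toFinite _)
    omega
  · have hB' : ∀ w, ¬ (R' ⊓ E).Adj v w := fun w hw => hB ⟨w, hw⟩
    have hset : (RR R' E ν).neighborSet v = R'.neighborSet v ∪ {u | Nw (R' ⊓ E) ν u v} := by
      ext u
      simp only [SimpleGraph.mem_neighborSet, Set.mem_union, Set.mem_setOf_eq]
      constructor
      · rintro ⟨h1, h2 | ⟨w, h2, h3⟩ | h2⟩
        · exact Or.inl h2.1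
        · exact absurd h2 (hB' w)
        · exact Or.inr h2
      · rintro (h1 | h1)
        · exact ⟨h1.ne, Or.inl ⟨h1, fun h3 => hB' u ⟨h1, h3⟩⟩⟩
        · refine ⟨?_, Or.inr (Or.inr h1)⟩
          obtain ⟨w, hw, hw2⟩ := nw_F hν h1
          exact hw2.ne'
    have hdj : Disjoint (R'.neighborSet v) {u | Nw (R' ⊓ E) ν u v} := by
      rw [Set.disjoint_left]
      intro u hu hu'
      obtain ⟨w, hw, hw2⟩ := nw_F hν hu'
      exact hdis _ _ _ hu hw2.symm
    rw [dg, dg, hset, Set.ncard_union_eq hdj (Set.toFinite _) (Set.toFinite _)]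
    congr 1
    split_ifs with h
    · obtain ⟨u, hu⟩ := h
      rw [Set.ncard_eq_one]
      refine ⟨u, ?_⟩
      ext u'
      simp only [Set.mem_setOf_eq, Set.mem_singleton_iff]
      constructor
      · intro hu'
        obtain ⟨w, hw, hw2⟩ := nw_F hν hu
        obtain ⟨w', hw', hw2'⟩ := nw_F hν hu'
        exact (hK.one u' w' u w v hw' hw hw2' hw2).1
      · rintro rfl
        exact hu
    · rw [Set.ncard_eq_zero (Set.toFinite _)]
      ext u
      simp only [Set.mem_setOf_eq, Set.mem_empty_iff_false, iff_false]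
      exact fun hu => h ⟨u, hu⟩

/-- the end of ELI, given the classes of the edges -/
theorem fin_step (ins : INSStmt) {R : SimpleGraph V} {K' C1 : ℕ} {Pal : Set V}
    (dec : Dec R R' F) (hK : Kap (R' ⊓ E) F κ)
    (hp : ∀ x y z, (R' ⊓ E).Adj x y → (F (κ x y)).Adj x z →
      dg R' z = 2 * K' ∧ ¬ E.Adj x z ∧ z ∈ Pal)
    (hd : ∀ v, 2 * K' ≤ dg R' v ∧ dg R' v ≤ 2 * K' + 2) (hs : Sep R R' K' 400)
    (hC : ∀ v, dg (R' ⊓ E) v ≤ C1)
    (hn : ∀ v, 10 * ({u | R'.Adj v u ∧ dg R' u ≠ 2 * K'}.ncard +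
      {u | R'.Adj v u ∧ u ∈ Pal}.ncard + (C1 + 1)) ≤ K') :
    ∃ (F' : Fin n → SimpleGraph V) (R'' : SimpleGraph V), (∀ i, LF (F' i)) ∧ R'' ≤ R ∧
      R'' ⊔ (⨆ i, F' i) = R ∧ Disjoint R'' E ∧
      (∀ v, 2 * K' ≤ dg R'' v ∧ dg R'' v ≤ 2 * K' + 2) ∧ Sep R R'' K' 400 ∧
      ∀ v, 10 * {u | R''.Adj v u ∧ dg R'' u ≠ 2 * K'}.ncard ≤ K' := by
  set S : Finset (Sym2 V) := Finset.univ.filter fun e => e ∈ (R' ⊓ E).edgeSet with hS
  have hSm : ∀ {x y}, s(x, y) ∈ S ↔ (R' ⊓ E).Adj x y := by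
    intro x y
    rw [hS, Finset.mem_filter, SimpleGraph.mem_edgeSet]
    exact ⟨fun h => h.2, fun h => ⟨Finset.mem_univ _, h⟩⟩
  obtain ⟨ν, hν0, hLF⟩ := seq_ins ins hK S fun e he => (Finset.mem_filter.mp he).2
  have hν : ∀ x y, (R' ⊓ E).Adj x y → (F (κ x y)).Adj x (ν x y) := fun x y h => hν0 x y (hSm.mpr h)
  have hR'R : R' ≤ R := by rw [← dec.un]; exact le_sup_left
  have hFR : ∀ i, F i ≤ R := by
    intro i
    rw [← dec.un]
    exact (le_iSup F i).trans le_sup_right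
  have hdeg := dg_RR hK dec.d1 hν
  have hA : ∀ u v, Nw (R' ⊓ E) ν u v → dg R' v = 2 * K' ∧ ¬ E.Adj u v ∧ v ∈ Pal := by
    intro u v h
    obtain ⟨w, hw, hw2⟩ := nw_F hν h
    exact hp u w v hw hw2
  refine ⟨FS F S κ ν, RR R' E ν, hLF, ?_, ?_, ?_, ?_, ?_, ?_⟩
  · intro u v h
    rcases h.2 with h1 | h1 | h1
    · exact hR'R h1.1
    · obtain ⟨w, hw, hw2⟩ := nw_F hν h1
      exact hFR _ hw2
    · obtain ⟨w, hw, hw2⟩ := nw_F hν h1
      exact (hFR _ hw2).symm
  · apply le_antisymm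
    · apply sup_le
      · intro u v h
        rcases h.2 with h1 | h1 | h1
        · exact hR'R h1.1
        · obtain ⟨w, hw, hw2⟩ := nw_F hν h1
          exact hFR _ hw2
        · obtain ⟨w, hw, hw2⟩ := nw_F hν h1
          exact (hFR _ hw2).symm
      · apply iSup_le
        intro i u v h
        rcases h with ⟨h1, -⟩ | ⟨-, h1, -⟩
        · exact hFR i h1
        · exact hR'R (hSm.mp h1).1
    · intro u v h
      rw [← dec.un] at h
      rcases h with h | h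
      · by_cases hE : E.Adj u v
        · right
          rw [SimpleGraph.iSup_adj]
          refine ⟨κ u v, Or.inr ⟨h.ne, hSm.mpr ⟨h, hE⟩, rfl, hK.sy v u⟩⟩
        · left
          exact ⟨h.ne, Or.inl ⟨h, hE⟩⟩
      · rw [SimpleGraph.iSup_adj] at h
        obtain ⟨i, hi⟩ := h
        by_cases h1 : Rem S κ ν i u v
        · left
          obtain ⟨w, hw, -, hw2⟩ := h1
          exact ⟨hi.ne, Or.inr (Or.inl ⟨w, hSm.mp hw, hw2⟩)⟩
        · by_cases h2 : Rem S κ ν i v u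
          · left
            obtain ⟨w, hw, -, hw2⟩ := h2
            exact ⟨hi.ne, Or.inr (Or.inr ⟨w, hSm.mp hw, hw2⟩)⟩
          · right
            rw [SimpleGraph.iSup_adj]
            exact ⟨i, Or.inl ⟨hi, h1, h2⟩⟩
  · rw [disjoint_iff_inf_le]
    intro u v h
    exfalso
    obtain ⟨⟨-, h1⟩, h2⟩ := h
    rcases h1 with h1 | h1 | h1
    · exact h1.2 h2
    · exact (hA u v h1).2.1 h2
    · exact (hA v u h1).2.1 h2.symm
  · intro v
    rw [hdeg v]
    have := hd v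
    split_ifs with h
    · obtain ⟨u, hu⟩ := h
      have := (hA u v hu).1
      omega
    · omega
  · intro x y hx hy
    apply hs x y
    · rw [hdeg x] at hx
      split_ifs at hx with h
      · obtain ⟨u, hu⟩ := h
        have := (hA u x hu).1
        omega
      · omega
    · rw [hdeg y] at hy
      split_ifs at hy with h
      · obtain ⟨u, hu⟩ := h
        have := (hA u y hu).1
        omega
      · omega
  · intro v
    have hsub : {u | (RR R' E ν).Adj v u ∧ dg (RR R' E ν) u ≠ 2 * K'} ⊆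
        (({u | R'.Adj v u ∧ dg R' u ≠ 2 * K'} ∪ {u | R'.Adj v u ∧ u ∈ Pal}) ∪
          (ν v '' (R' ⊓ E).neighborSet v)) ∪ {u | Nw (R' ⊓ E) ν u v} := by
      rintro u ⟨⟨h1, h2⟩, h3⟩
      rcases h2 with h2 | ⟨w, h2, h4⟩ | h2
      · left
        left
        rw [hdeg u] at h3
        split_ifs at h3 with h
        · obtain ⟨u', hu'⟩ := h
          exact Or.inr ⟨h2.1, (hA u' u hu').2.2⟩
        · exact Or.inl ⟨h2.1, by simpa using h3⟩
      · left
        right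
        exact ⟨w, h2, h4.symm⟩
      · right
        exact h2
    have h1 : {u | Nw (R' ⊓ E) ν u v}.ncard ≤ 1 := by
      rw [Set.ncard_le_one (Set.toFinite _)]
      intro u hu u' hu'
      obtain ⟨w, hw, hw2⟩ := nw_F hν hu
      obtain ⟨w', hw', hw2'⟩ := nw_F hν hu'
      exact (hK.one u w u' w' v hw hw' hw2 hw2').1
    have h2 : (ν v '' (R' ⊓ E).neighborSet v).ncard ≤ C1 :=
      (Set.ncard_image_le (Set.toFinite _)).trans (hC v)
    have h3 := Set.ncard_le_ncard hsub (Set.toFinite _)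
    have h4 := Set.ncard_union_le (({u | R'.Adj v u ∧ dg R' u ≠ 2 * K'} ∪
      {u | R'.Adj v u ∧ u ∈ Pal}) ∪ (ν v '' (R' ⊓ E).neighborSet v)) {u | Nw (R' ⊓ E) ν u v}
    have h5 := Set.ncard_union_le ({u | R'.Adj v u ∧ dg R' u ≠ 2 * K'} ∪
      {u | R'.Adj v u ∧ u ∈ Pal}) (ν v '' (R' ⊓ E).neighborSet v)
    have h6 := Set.ncard_union_le {u | R'.Adj v u ∧ dg R' u ≠ 2 * K'}
      {u | R'.Adj v u ∧ u ∈ Pal}
    have h7 := hn v
    omega

end deg

end Pool.Agent.C4N.H32
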