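import Pool.Agent.C4N.Stm2
import Pool.Agent.Helper29_C4N.Ebl

/-!
# C4N, module ELI, part 3: choices without conflict, palette
-/

set_option autoImplicit false

open scoped BigOperators Classical

noncomputable section

namespace Pool.Agent.C4N.H32

open Finset
open Pool.Agent.C4N
open Pool.Agent.Helper13_Conc

/-! ## choices without conflict -/

theorem pair_card {Δ α : Type} [Fintype Δ] [Fintype α] [Nonempty α] {e e' : Δ} (he : e ≠ e')
    (a a' : α) : ((univ.filter fun ω : Δ → α => ω e = a ∧ ω e' = a').card : ℝ) =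
      1 / (Fintype.card α : ℝ) ^ 2 * Fintype.card (Δ → α) := by
  rw [card_filter_eq_mean]
  congr 1
  have h1 : (fun ω : Δ → α => if ω e = a ∧ ω e' = a' then (1 : ℝ) else 0) =
      fun ω => (if ω e = a then (1 : ℝ) else 0) * (if ω e' = a' then (1 : ℝ) else 0) := by
    funext ω
    by_cases h : ω e = a <;> by_cases h' : ω e' = a' <;> simp [h, h']
  rw [h1, mean_mul_dep (W := {e}) (W' := {e'}) (by simpa using he)
    (f := fun ω : Δ → α => if ω e = a then (1 : ℝ) else 0)
    (g := fun ω : Δ → α => if ω e' = a' then (1 : ℝ) else 0)]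
  · rw [mean_coord e (fun b => if b = a then (1 : ℝ) else 0),
      mean_coord e' (fun b => if b = a' then (1 : ℝ) else 0)]
    simp only [sum_ite_eq', mem_univ, if_true]
    rw [div_mul_div_comm, one_mul, sq]
  · intro ω ω' h
    have := h e (mem_singleton_self e)
    simp only [this]
  · intro ω ω' h
    have := h e' (mem_singleton_self e')
    simp only [this]

/-- lists of size `t`, every entry has at most `t / 32` conflicts -/
theorem choose_cls {Δ : Type} [Fintype Δ] {n t : ℕ} (ht : 1 ≤ t) (G : Δ → Finset (Fin n))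
    (hG : ∀ e, t ≤ (G e).card) (Cf : Δ → Fin n → Δ → Fin n → Prop)
    (hsym : ∀ e i e' i', Cf e i e' i' → Cf e' i' e i) (M : ℝ)
    (hM : ∀ e i, i ∈ G e → ((univ.filter fun p : Δ × Fin n =>
      e ≠ p.1 ∧ p.2 ∈ G p.1 ∧ Cf e i p.1 p.2).card : ℝ) ≤ M)
    (hMt : 32 * M ≤ t) :
    ∃ κ : Δ → Fin n, (∀ e, κ e ∈ G e) ∧ ∀ e e', e ≠ e' → ¬ Cf e (κ e) e' (κ e') := by
  have hcand : ∀ e, ∃ c : Fin t ↪ Fin n, ∀ a, c a ∈ G e := by
    intro e
    obtain ⟨T, hT, hTc⟩ := Finset.exists_subset_card_eq (hG e)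
    exact ⟨(T.orderEmbOfFin hTc).toEmbedding, fun a => hT (T.orderEmbOfFin_mem hTc a)⟩
  choose cand hcand using hcand
  have : Nonempty (Fin t) := ⟨⟨0, ht⟩⟩
  have htR : (1 : ℝ) ≤ t := by exact_mod_cast ht
  have ht0 : (0 : ℝ) < t := by linarith
  -- indicator of a conflict
  obtain ⟨u, hu⟩ : ∃ u : Δ → Fin t → Δ → Fin t → ℝ, u = fun e a e' a' =>
    if e ≠ e' ∧ Cf e (cand e a) e' (cand e' a') then (1 : ℝ) else 0 := ⟨_, rfl⟩
  have hu0 : ∀ e a e' a', 0 ≤ u e a e' a' := by
    intro e a e' a'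
    rw [hu]
    simp only
    split_ifs <;> norm_num
  have husym : ∀ e a e' a', u e a e' a' = u e' a' e a := by
    intro e a e' a'
    rw [hu]
    simp only
    have : (e ≠ e' ∧ Cf e (cand e a) e' (cand e' a')) ↔
        (e' ≠ e ∧ Cf e' (cand e' a') e (cand e a)) :=
      ⟨fun h => ⟨h.1.symm, hsym _ _ _ _ h.2⟩, fun h => ⟨h.1.symm, hsym _ _ _ _ h.2⟩⟩
    by_cases h : e ≠ e' ∧ Cf e (cand e a) e' (cand e' a')
    · rw [if_pos h, if_pos (this.mp h)]
    · rw [if_neg h, if_neg fun h' => h (this.mpr h')]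
  have hrow : ∀ e a, ∑ e', ∑ a', u e a e' a' ≤ M := by
    intro e a
    have hr1 : ∑ e', ∑ a', u e a e' a' = ((univ.filter fun p : Δ × Fin t =>
        e ≠ p.1 ∧ Cf e (cand e a) p.1 (cand p.1 p.2)).card : ℝ) := by
      rw [Finset.card_filter, hu]
      push_cast
      rw [Fintype.sum_prod_type]
    rw [hr1]
    refine le_trans ?_ (hM e (cand e a) (hcand e a))
    · have : (univ.filter fun p : Δ × Fin t =>
          e ≠ p.1 ∧ Cf e (cand e a) p.1 (cand p.1 p.2)).card ≤
          (univ.filter fun p : Δ × Fin n =>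
            e ≠ p.1 ∧ p.2 ∈ G p.1 ∧ Cf e (cand e a) p.1 p.2).card := by
        apply Finset.card_le_card_of_injOn (fun p : Δ × Fin t => (p.1, cand p.1 p.2))
        · intro p hp
          have hp' := (Finset.mem_filter.mp hp).2
          exact Finset.mem_coe.mpr (Finset.mem_filter.mpr
            ⟨Finset.mem_univ _, hp'.1, hcand _ _, hp'.2⟩)
        · rintro ⟨p1, p2⟩ - ⟨r1, r2⟩ - hpr
          simp only [Prod.mk.injEq] at hpr
          obtain ⟨h1, h2⟩ := hpr
          subst h1
          rw [(cand p1).injective h2]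
      exact_mod_cast this
  obtain ⟨c, hc⟩ : ∃ c : Δ → Δ → ℝ, c = fun e e' => ∑ a, ∑ a', u e a e' a' := ⟨_, rfl⟩
  have hc0 : ∀ e e', 0 ≤ c e e' := by
    intro e e'
    rw [hc]
    exact sum_nonneg fun a _ => sum_nonneg fun a' _ => hu0 _ _ _ _
  have hcsym : ∀ e e', c e e' = c e' e := by
    intro e e'
    rw [hc]
    simp only
    rw [sum_comm]
    exact sum_congr rfl fun a _ => sum_congr rfl fun a' _ => husym _ _ _ _
  have hcrow : ∀ e, ∑ e', c e e' ≤ t * M := by
    intro e
    rw [hc]
    simp only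
    rw [sum_comm]
    calc ∑ a, ∑ e', ∑ a', u e a e' a' ≤ ∑ _a : Fin t, M := sum_le_sum fun a _ => hrow e a
      _ = t * M := by rw [sum_const, card_univ, Fintype.card_fin, nsmul_eq_mul]
  have hcle : ∀ e e', c e e' ≤ t * M := by
    intro e e'
    exact (single_le_sum (f := fun e' => c e e') (fun e'' _ => hc0 e e'') (mem_univ e')).trans
      (hcrow e)
  obtain ⟨A, hA⟩ : ∃ A : Δ × Δ → Finset (Δ → Fin t), A = fun p => univ.filter fun ω =>
    p.1 ≠ p.2 ∧ Cf p.1 (cand p.1 (ω p.1)) p.2 (cand p.2 (ω p.2)) := ⟨_, rfl⟩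
  have hcard : (0 : ℝ) < Fintype.card (Δ → Fin t) := card_pos'
  have hAc : ∀ p : Δ × Δ, ((A p).card : ℝ) ≤ c p.1 p.2 / (t : ℝ) ^ 2 *
      Fintype.card (Δ → Fin t) := by
    rintro ⟨e, e'⟩
    by_cases he : e = e'
    · have : A (e, e') = ∅ := by
        rw [hA]
        simp only
        rw [filter_eq_empty_iff]
        intro ω _ h
        exact h.1 he
      rw [this, card_empty, Nat.cast_zero]
      exact mul_nonneg (div_nonneg (hc0 _ _) (by positivity)) hcard.le
    · have h1 : ((A (e, e')).card : ℝ) = ∑ ω : Δ → Fin t, u e (ω e) e' (ω e') := by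
        rw [hA, hu]
        simp only
        rw [card_filter]
        push_cast
        rfl
      have h2 : ∀ ω : Δ → Fin t, u e (ω e) e' (ω e') =
          ∑ a, ∑ a', u e a e' a' * (if ω e = a ∧ ω e' = a' then (1 : ℝ) else 0) := by
        intro ω
        rw [sum_eq_single (ω e), sum_eq_single (ω e')]
        · simp
        · intro b _ hb
          rw [if_neg (fun h => hb h.2.symm), mul_zero]
        · intro h
          exact absurd (mem_univ _) h
        · intro b _ hb
          apply sum_eq_zero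
          intro b' _
          rw [if_neg (fun h => hb h.1.symm), mul_zero]
        · intro h
          exact absurd (mem_univ _) h
      have h3 : ∀ a a', ∑ ω : Δ → Fin t, (if ω e = a ∧ ω e' = a' then (1 : ℝ) else 0) =
          1 / (t : ℝ) ^ 2 * Fintype.card (Δ → Fin t) := by
        intro a a'
        have h4 := pair_card he a a'
        rw [Fintype.card_fin] at h4
        rw [← h4, card_filter]
        push_cast
        rfl
      apply le_of_eq
      rw [h1]
      calc ∑ ω : Δ → Fin t, u e (ω e) e' (ω e')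
          = ∑ ω : Δ → Fin t, ∑ a, ∑ a', u e a e' a' *
              (if ω e = a ∧ ω e' = a' then (1 : ℝ) else 0) := sum_congr rfl fun ω _ => h2 ω
        _ = ∑ a, ∑ a', u e a e' a' *
              ∑ ω : Δ → Fin t, (if ω e = a ∧ ω e' = a' then (1 : ℝ) else 0) := by
            rw [sum_comm]
            apply sum_congr rfl
            intro a _
            rw [sum_comm]
            apply sum_congr rfl
            intro a' _
            rw [mul_sum]
        _ = ∑ a, ∑ a', u e a e' a' * (1 / (t : ℝ) ^ 2 * Fintype.card (Δ → Fin t)) := by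
            apply sum_congr rfl
            intro a _
            apply sum_congr rfl
            intro a' _
            rw [h3]
        _ = c e e' / (t : ℝ) ^ 2 * Fintype.card (Δ → Fin t) := by
            rw [hc]
            simp only [← sum_mul]
            ring
  obtain ⟨ω, hω⟩ := lll_sum A (fun p : Δ × Δ => ({p.1, p.2} : Finset Δ)) (by
      rintro ⟨e, e'⟩ ω ω' h hω
      rw [hA] at hω ⊢
      simp only [mem_filter, mem_univ, true_and] at hω ⊢
      rw [← h e (by simp), ← h e' (by simp)]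
      exact hω)
    (fun p => 2 * c p.1 p.2 / (t : ℝ) ^ 2) (1 / 8)
    (fun p => div_nonneg (mul_nonneg (by norm_num) (hc0 _ _)) (by positivity))
    (by
      rintro ⟨e, e'⟩
      simp only
      rw [div_le_iff₀ (by positivity)]
      have h1 := hcle e e'
      nlinarith)
    (by
      intro e
      have h1 : (univ.filter fun p : Δ × Δ => e ∈ ({p.1, p.2} : Finset Δ)) ⊆
          (univ.image fun e' => (e, e')) ∪ (univ.image fun e' => (e', e)) := by
        rintro ⟨p1, p2⟩ hp
        simp only [mem_filter, mem_univ, true_and, mem_insert, mem_singleton] at hp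
        rcases hp with rfl | rfl
        · exact mem_union_left _ (mem_image.mpr ⟨p2, mem_univ _, rfl⟩)
        · exact mem_union_right _ (mem_image.mpr ⟨p1, mem_univ _, rfl⟩)
      have hx0 : ∀ p : Δ × Δ, 0 ≤ 2 * c p.1 p.2 / (t : ℝ) ^ 2 :=
        fun p => div_nonneg (mul_nonneg (by norm_num) (hc0 _ _)) (by positivity)
      have h2 : ∑ p ∈ (univ.image fun e' : Δ => (e, e')), 2 * c p.1 p.2 / (t : ℝ) ^ 2 ≤
          2 * (t * M) / (t : ℝ) ^ 2 := by
        rw [sum_image (fun a _ b _ h => (Prod.mk.inj h).2)]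
        simp only
        rw [← sum_div, ← mul_sum]
        gcongr
        exact hcrow e
      have h3 : ∑ p ∈ (univ.image fun e' : Δ => (e', e)), 2 * c p.1 p.2 / (t : ℝ) ^ 2 ≤
          2 * (t * M) / (t : ℝ) ^ 2 := by
        rw [sum_image (fun a _ b _ h => (Prod.mk.inj h).1)]
        simp only
        rw [← sum_div, ← mul_sum]
        gcongr
        rw [sum_congr rfl fun e' _ => hcsym e' e]
        exact hcrow e
      refine (sum_le_sum_of_subset_of_nonneg h1 fun p _ _ => hx0 p).trans ?_
      have h4 : ∑ p ∈ (univ.image fun e' : Δ => (e, e')) ∪ (univ.image fun e' : Δ => (e', e)),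
          2 * c p.1 p.2 / (t : ℝ) ^ 2 ≤
          ∑ p ∈ (univ.image fun e' : Δ => (e, e')), 2 * c p.1 p.2 / (t : ℝ) ^ 2 +
          ∑ p ∈ (univ.image fun e' : Δ => (e', e)), 2 * c p.1 p.2 / (t : ℝ) ^ 2 := by
        rw [← sum_union_inter]
        exact le_add_of_nonneg_right (sum_nonneg fun p _ => hx0 p)
      refine h4.trans ((add_le_add h2 h3).trans ?_)
      rw [← add_div, div_le_iff₀ (by positivity)]
      nlinarith)
    (by
      rintro ⟨e, e'⟩
      refine (hAc (e, e')).trans (mul_le_mul_of_nonneg_right ?_ hcard.le)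
      have h1 : ((({e, e'} : Finset Δ).card : ℕ) : ℝ) ≤ 2 := by
        exact_mod_cast card_le_two
      have h2 := Real.add_one_le_exp (-(2 * (1 / 8) * ((({e, e'} : Finset Δ).card : ℕ) : ℝ)))
      have h3 : (1 : ℝ) / 2 ≤
          Real.exp (-(2 * (1 / 8) * ((({e, e'} : Finset Δ).card : ℕ) : ℝ))) := by linarith
      have h4 : 0 ≤ 2 * c e e' / (t : ℝ) ^ 2 :=
        div_nonneg (mul_nonneg (by norm_num) (hc0 _ _)) (by positivity)
      calc c e e' / (t : ℝ) ^ 2 = 2 * c e e' / (t : ℝ) ^ 2 * (1 / 2) := by ring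
        _ ≤ _ := mul_le_mul_of_nonneg_left h3 h4)
  refine ⟨fun e => cand e (ω e), fun e => hcand _ _, fun e e' he h => ?_⟩
  apply hω (e, e')
  rw [hA]
  exact mem_filter.mpr ⟨mem_univ _, he, h⟩

end Pool.Agent.C4N.H32
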