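import Pool.Agent.Helper32_C4N.Eli3

/-!
# C4N, module ELI, part 4: the palette
-/

set_option autoImplicit false

open scoped BigOperators Classical

noncomputable section

namespace Pool.Agent.C4N.H32

open Finset
open Pool.Agent.C4N
open Pool.Agent.Helper13_Conc

theorem pal4 (llb : LLBStmt) (edc : EDCStmt) {V : Type} [Fintype V] (R R' : SimpleGraph V)
    {K n q : ℕ} (hK1 : 1 ≤ K) (hq : 1 ≤ q) (hR : ∀ v, dg R v ≤ 3 * K) (hR'R : R' ≤ R)
    (Pr : V → V → Prop) (hPr : ∀ x y, Pr x y → R.Adj x y)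
    (Y : V → V → Finset (Fin n)) (Bk : V → V → Fin n → Finset V)
    (h4 : ∀ x y, Pr x y → ∀ i ∈ Y x y, (Bk x y i).card = 4)
    (hdj : ∀ x y, Pr x y → ∀ i ∈ Y x y, ∀ j ∈ Y x y, i ≠ j → Disjoint (Bk x y i) (Bk x y j))
    (hN : ∀ x y, Pr x y → ∀ i ∈ Y x y, ∀ z ∈ Bk x y i, R.Adj x z ∨ R.Adj y z)
    (hY : ∀ x y, Pr x y → (K : ℝ) / 2 ≤ (Y x y).card)
    (hexp : Real.exp (-√(K : ℝ)) * (16 * ((200 * K ^ 3 : ℕ) : ℝ) ^ 2) ≤ 1)
    (hsq : √(K : ℝ) ≤ K / (16 * (q : ℝ) ^ 4))
    (m : ℝ) (hm : ∀ v, 2 * (dg R' v / (q : ℝ)) + √(K : ℝ) ≤ m) :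
    ∃ Pal : Finset V, (∀ v, ({u | R'.Adj v u ∧ u ∈ Pal}.ncard : ℝ) ≤ m) ∧
      ∀ x y, Pr x y → (K : ℝ) / (4 * (q : ℝ) ^ 4) ≤
        ((Y x y).filter fun i => Bk x y i ⊆ Pal).card := by
  obtain ⟨α, iα, hα⟩ : ∃ (α : Type) (_ : Fintype α), Fintype.card α = q :=
    ⟨Fin q, inferInstance, Fintype.card_fin q⟩
  have hne : Nonempty α := Fintype.card_pos_iff.1 (by omega)
  obtain ⟨o⟩ := id hne
  have hq0 : (0 : ℝ) < q := by exact_mod_cast hq
  have hcard : (0 : ℝ) < Fintype.card (V → α) := card_pos'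
  -- neighbours
  obtain ⟨FR, hFR⟩ : ∃ F : V → Finset V, F = fun v => univ.filter fun y => R.Adj v y := ⟨_, rfl⟩
  obtain ⟨FT, hFT⟩ : ∃ F : V → Finset V, F = fun v => univ.filter fun y => R'.Adj v y := ⟨_, rfl⟩
  have cR : ∀ v, (FR v).card ≤ 3 * K := by
    intro v
    rw [hFR]
    exact (H29.card_nb R v).le.trans (hR v)
  have cT : ∀ v, (FT v).card = dg R' v := by
    intro v
    rw [hFT]
    exact H29.card_nb R' v
  have hTR : ∀ v, FT v ⊆ FR v := by
    intro v u hu
    rw [hFT] at hu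
    rw [hFR]
    exact mem_filter.2 ⟨mem_univ _, hR'R (mem_filter.1 hu).2⟩
  obtain ⟨X, hX⟩ : ∃ X : V → V → Fin n → (V → α) → ℝ, X = fun x y i ω =>
    if ∀ z ∈ Bk x y i, ω z ∈ ({o} : Finset α) then (1 : ℝ) else 0 := ⟨_, rfl⟩
  have hdep : ∀ x y i, Dep (Bk x y i) (X x y i) := by
    intro x y i ω ω' h
    rw [hX]
    simp only
    have : (∀ z ∈ Bk x y i, ω z ∈ ({o} : Finset α)) ↔
        (∀ z ∈ Bk x y i, ω' z ∈ ({o} : Finset α)) :=
      ⟨fun h1 z hz => by rw [← h z hz]; exact h1 z hz,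
        fun h1 z hz => by rw [h z hz]; exact h1 z hz⟩
    by_cases h1 : ∀ z ∈ Bk x y i, ω z ∈ ({o} : Finset α)
    · rw [if_pos h1, if_pos (this.1 h1)]
    · rw [if_neg h1, if_neg fun h2 => h1 (this.2 h2)]
  obtain ⟨W, hW⟩ : ∃ W : V ⊕ {p : V × V // Pr p.1 p.2} → Finset V,
    W = Sum.elim FT (fun p => (Y p.1.1 p.1.2).biUnion fun i => Bk p.1.1 p.1.2 i) := ⟨_, rfl⟩
  obtain ⟨B, hB⟩ : ∃ B : V ⊕ {p : V × V // Pr p.1 p.2} → Finset (V → α), B =
    Sum.elim (fun v => univ.filter fun ω => 2 * (dg R' v / (q : ℝ)) + √(K : ℝ) ≤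
        (((FT v).filter fun e => ω e ∈ ({o} : Finset α)).card : ℝ))
      fun p => univ.filter fun ω => ∑ i ∈ Y p.1.1 p.1.2, X p.1.1 p.1.2 i ω ≤
        (1 - 1 / 2) * ((K : ℝ) / 2 / (q : ℝ) ^ 4) - 0 := ⟨_, rfl⟩
  have hT1 : ((({o} : Finset α).card : ℕ) : ℝ) / Fintype.card (α) = 1 / q := by
    rw [card_singleton, hα, Nat.cast_one]
  -- the probabilities
  have hprob : ∀ i, ((B i).card : ℝ) ≤ Real.exp (-√(K : ℝ)) * Fintype.card (V → α) := by
    rintro (v | ⟨⟨x, y⟩, hxy⟩)
    · have h2 := (edc V α (FT v) {o} (dg R' v / (q : ℝ)) (√(K : ℝ)) ?_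
        (Real.sqrt_nonneg _)).1
      · rw [hB]
        simp only [Sum.elim_inl]
        exact h2
      · rw [hT1, cT, mul_one_div]
    · have hmean : ∀ i ∈ Y x y, mean (X x y i) = 1 / (q : ℝ) ^ 4 := by
        intro i hi
        have h1 := H29.card_all (E := V) (α := α) (Bk x y i) {o}
        have h2 := card_filter_eq_mean (V := V) (α := α)
          fun ω => ∀ e ∈ Bk x y i, ω e ∈ ({o} : Finset α)
        rw [h2, h4 x y hxy i hi, hT1] at h1
        have h5 := mul_right_cancel₀ hcard.ne' h1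
        rw [hX]
        simp only
        rw [h5]
        ring
      have h2 := T2 (V := V) (α := α) (Y x y)
        (fun i => Bk x y i) (hdj x y hxy) (X x y) (fun i _ => hdep x y i) 1 one_pos
        (fun i _ ω => by
          rw [hX]
          simp only
          split_ifs <;> norm_num)
        (fun i _ ω => by
          rw [hX]
          simp only
          split_ifs <;> norm_num)
        ((K : ℝ) / 2 / (q : ℝ) ^ 4) (1 / 2) 0 (by positivity)
        (by
          rw [sum_congr rfl hmean, sum_const, nsmul_eq_mul, mul_one_div]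
          gcongr
          exact hY x y hxy) (by norm_num)
        (by norm_num)
        (fun ω => ∑ i ∈ Y x y, X x y i ω ≤ (1 - 1 / 2) * ((K : ℝ) / 2 / (q : ℝ) ^ 4) - 0)
        fun ω h => h
      rw [hB]
      simp only [Sum.elim_inr]
      refine h2.trans (mul_le_mul_of_nonneg_right ?_ hcard.le)
      apply Real.exp_le_exp.2
      apply neg_le_neg
      calc √(K : ℝ) ≤ K / (16 * (q : ℝ) ^ 4) := hsq
        _ = 1 / 2 / 1 * (1 / 2 * ((K : ℝ) / 2 / (q : ℝ) ^ 4) / 2 + 0) := by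
            field_simp
            ring
  have hdp : ∀ i (ω ω' : V → α), (∀ e ∈ W i, ω e = ω' e) → ω ∈ B i → ω' ∈ B i := by
    rintro (v | ⟨⟨x, y⟩, hxy⟩) ω ω' h hω
    · rw [hW] at h
      rw [hB] at hω ⊢
      simp only [Sum.elim_inl, mem_filter, mem_univ, true_and] at h hω ⊢
      have h1 : ((FT v).filter fun e => ω' e ∈ ({o} : Finset α)) =
          (FT v).filter fun e => ω e ∈ ({o} : Finset α) := by
        apply filter_congr
        intro e he
        rw [h e he]
      rw [h1]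
      exact hω
    · rw [hW] at h
      rw [hB] at hω ⊢
      simp only [Sum.elim_inr, mem_filter, mem_univ, true_and] at h hω ⊢
      have h1 : ∑ i ∈ Y x y, X x y i ω' = ∑ i ∈ Y x y, X x y i ω := by
        apply sum_congr rfl
        intro i hi
        exact (hdep x y i ω ω' fun e he => h e (mem_biUnion.2 ⟨i, hi, he⟩)).symm
      rw [h1]
      exact hω
  have hK3 : K ≤ K ^ 3 := Nat.le_self_pow (by norm_num) K
  have hbk : ∀ p : {p : V × V // Pr p.1 p.2},
      ((Y p.1.1 p.1.2).biUnion fun i => Bk p.1.1 p.1.2 i) ⊆ FR p.1.1 ∪ FR p.1.2 := by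
    rintro ⟨⟨x, y⟩, hxy⟩ z hz
    obtain ⟨i, hi, hz⟩ := mem_biUnion.1 hz
    rw [hFR]
    rcases hN x y hxy i hi z hz with h | h
    · exact mem_union_left _ (mem_filter.2 ⟨mem_univ _, h⟩)
    · exact mem_union_right _ (mem_filter.2 ⟨mem_univ _, h⟩)
  have hsz : ∀ i, (W i).card ≤ 200 * K ^ 3 := by
    rintro (v | p)
    · rw [hW]
      simp only [Sum.elim_inl]
      have := (card_le_card (hTR v)).trans (cR v)
      omega
    · rw [hW]
      simp only [Sum.elim_inr]
      have h1 := (card_le_card (hbk p)).trans (card_union_le _ _)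
      have h2 := cR p.1.1
      have h3 := cR p.1.2
      omega
  have hev : ∀ e, (univ.filter fun i => e ∈ W i).card ≤ 200 * K ^ 3 := by
    intro e
    obtain ⟨Q1, hQ1⟩ : ∃ Q : Finset (V × V),
      Q = (FR e).biUnion fun x => (FR x).image fun y => (x, y) := ⟨_, rfl⟩
    obtain ⟨Q2, hQ2⟩ : ∃ Q : Finset (V × V),
      Q = (FR e).biUnion fun y => (FR y).image fun x => (x, y) := ⟨_, rfl⟩
    have hQ1c : Q1.card ≤ 3 * K * (3 * K) := by
      rw [hQ1]
      refine (card_biUnion_le_card_mul _ _ (3 * K) fun x _ =>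
        card_image_le.trans (cR x)).trans (Nat.mul_le_mul_right _ (cR e))
    have hQ2c : Q2.card ≤ 3 * K * (3 * K) := by
      rw [hQ2]
      refine (card_biUnion_le_card_mul _ _ (3 * K) fun x _ =>
        card_image_le.trans (cR x)).trans (Nat.mul_le_mul_right _ (cR e))
    have h2 : ((univ.filter fun i => e ∈ W i).map
        ⟨Sum.map id Subtype.val, Function.Injective.sumMap Function.injective_id
          Subtype.val_injective⟩ : Finset (V ⊕ V × V)) ⊆
        ((FR e).map ⟨Sum.inl, Sum.inl_injective⟩) ∪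
        ((Q1 ∪ Q2).map ⟨Sum.inr, Sum.inr_injective⟩) := by
      intro i hi
      rw [mem_map] at hi
      obtain ⟨j, hj, rfl⟩ := hi
      rcases j with v | p
      · rw [mem_union]
        left
        rw [mem_map]
        refine ⟨v, ?_, rfl⟩
        rw [hW] at hj
        simp only [Sum.elim_inl, mem_filter, mem_univ, true_and] at hj
        have h1 := hTR v hj
        rw [hFR] at h1 ⊢
        simp only [mem_filter, mem_univ, true_and] at h1 ⊢
        exact h1.symm
      · rw [mem_union]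
        right
        rw [mem_map]
        refine ⟨p.1, ?_, rfl⟩
        rw [hW] at hj
        simp only [Sum.elim_inr, mem_filter, mem_univ, true_and] at hj
        have h1 := hbk p hj
        have h3 : R.Adj p.1.1 p.1.2 := hPr _ _ p.2
        rcases mem_union.1 h1 with h1 | h1
        · apply mem_union_left
          rw [hQ1]
          rw [hFR] at h1 ⊢
          simp only [mem_filter, mem_univ, true_and] at h1
          rw [mem_biUnion]
          exact ⟨p.1.1, mem_filter.2 ⟨mem_univ _, h1.symm⟩,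
            mem_image.2 ⟨p.1.2, mem_filter.2 ⟨mem_univ _, h3⟩, rfl⟩⟩
        · apply mem_union_right
          rw [hQ2]
          rw [hFR] at h1 ⊢
          simp only [mem_filter, mem_univ, true_and] at h1
          rw [mem_biUnion]
          exact ⟨p.1.2, mem_filter.2 ⟨mem_univ _, h1.symm⟩,
            mem_image.2 ⟨p.1.1, mem_filter.2 ⟨mem_univ _, h3.symm⟩, rfl⟩⟩
    have h3 := card_le_card h2
    rw [card_map] at h3
    refine h3.trans ((card_union_le _ _).trans ?_)
    rw [card_map, card_map]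
    have h5 := card_union_le Q1 Q2
    have h6 := cR e
    have h7 : 3 * K * (3 * K) ≤ 9 * K ^ 3 := by
      have : K ^ 2 ≤ K ^ 3 := Nat.pow_le_pow_right hK1 (by norm_num)
      calc 3 * K * (3 * K) = 9 * K ^ 2 := by ring
        _ ≤ 9 * K ^ 3 := Nat.mul_le_mul_left _ this
    omega
  have hpr : ∀ i, ((B i).card : ℝ) * (16 * ((200 * K ^ 3 : ℕ) : ℝ) ^ 2) ≤
      Fintype.card (V → α) := by
    intro i
    have h1 := hprob i
    calc ((B i).card : ℝ) * (16 * ((200 * K ^ 3 : ℕ) : ℝ) ^ 2) ≤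
          (Real.exp (-√(K : ℝ)) * Fintype.card (V → α)) *
            (16 * ((200 * K ^ 3 : ℕ) : ℝ) ^ 2) := by gcongr
      _ = (Real.exp (-√(K : ℝ)) * (16 * ((200 * K ^ 3 : ℕ) : ℝ) ^ 2)) *
          Fintype.card (V → α) := by ring
      _ ≤ 1 * Fintype.card (V → α) := by gcongr
      _ = _ := one_mul _
  have hD1 : 1 ≤ 200 * K ^ 3 := by
    have : 1 ≤ K ^ 3 := Nat.one_le_pow _ _ hK1
    omega
  obtain ⟨ω, hω⟩ := llb V α (V ⊕ {p : V × V // Pr p.1 p.2}) B W (200 * K ^ 3) hD1 hdp hsz hev hpr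
  refine ⟨univ.filter fun v => ω v = o, ?_, ?_⟩
  · intro v
    have h1 := hω (Sum.inl v)
    rw [hB] at h1
    simp only [Sum.elim_inl, mem_filter, mem_univ, true_and, not_le] at h1
    have h2 : {u | R'.Adj v u ∧ u ∈ univ.filter fun v => ω v = o} =
        (((FT v).filter fun e => ω e ∈ ({o} : Finset α) : Finset V) : Set V) := by
      ext u
      rw [hFT]
      simp
    rw [h2, Set.ncard_coe_finset]
    exact h1.le.trans (hm v)
  · intro x y hxy
    have h1 := hω (Sum.inr ⟨(x, y), hxy⟩)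
    rw [hB] at h1
    simp only [Sum.elim_inr, mem_filter, mem_univ, true_and, not_le] at h1
    have h2 : ∑ i ∈ Y x y, X x y i ω = (((Y x y).filter fun i =>
        Bk x y i ⊆ univ.filter (fun v => ω v = o)).card : ℝ) := by
      rw [card_filter, hX]
      push_cast
      apply sum_congr rfl
      intro i _
      have : (∀ z ∈ Bk x y i, ω z ∈ ({o} : Finset α)) ↔
          Bk x y i ⊆ univ.filter (fun v => ω v = o) := by
        constructor
        · intro h z hz
          exact mem_filter.2 ⟨mem_univ _, mem_singleton.1 (h z hz)⟩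
        · intro h z hz
          exact mem_singleton.2 (mem_filter.1 (h hz)).2
      by_cases h : ∀ z ∈ Bk x y i, ω z ∈ ({o} : Finset α)
      · rw [if_pos h, if_pos (this.1 h)]
      · rw [if_neg h, if_neg fun h' => h (this.2 h')]
    rw [h2] at h1
    refine le_trans (le_of_eq ?_) h1.le
    field_simp
    ring

end Pool.Agent.C4N.H32
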