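import Pool.Agent.Helper32_C4N.Eli2
import Pool.Agent.Helper32_C4N.Eli4

/-!
# C4N, module ELI, part 5: number of the available classes
-/

set_option autoImplicit false

open scoped BigOperators Classical

noncomputable section

namespace Pool.Agent.C4N.H32

open Finset
open Pool.Agent.C4N

theorem flt_card {α : Type*} [Fintype α] (P : α → Prop) [DecidablePred P] :
    (univ.filter P).card = {a | P a}.ncard := by
  rw [← Set.ncard_coe_finset]
  congr 1
  ext u
  simp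

section count

variable {V : Type} [Fintype V] {n : ℕ} {R R' E : SimpleGraph V} {F : Fin n → SimpleGraph V}

omit [Fintype V] in
theorem dec_R' (dec : Dec R R' F) : R' ≤ R := by rw [← dec.un]; exact le_sup_left

omit [Fintype V] in
theorem dec_F (dec : Dec R R' F) (i : Fin n) : F i ≤ R := by
  rw [← dec.un]
  exact (le_iSup F i).trans le_sup_right

omit [Fintype V] in
theorem dec_d1 (dec : Dec R R' F) {i : Fin n} {x y : V} (h1 : R'.Adj x y)
    (h2 : (F i).Adj x y) : False := by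
  have h3 := (dec.d1 i).le_bot (show (R' ⊓ F i).Adj x y from ⟨h1, h2⟩)
  exact h3

omit [Fintype V] in
theorem dec_d2 (dec : Dec R R' F) {i j : Fin n} {x y : V} (h1 : (F i).Adj x y)
    (h2 : (F j).Adj x y) : i = j := by
  by_contra hij
  have h3 := (dec.d2 i j hij).le_bot (show (F i ⊓ F j).Adj x y from ⟨h1, h2⟩)
  exact h3

theorem dg_dec (dec : Dec R R' F) (x : V) : dg R x = dg R' x + ∑ i, dg (F i) x := by
  have h1 : (univ.filter fun y => R.Adj x y) = (univ.filter fun y => R'.Adj x y) ∪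
      (univ : Finset (Fin n)).biUnion fun i => univ.filter fun y => (F i).Adj x y := by
    ext y
    rw [mem_union, mem_biUnion]
    simp only [mem_filter, mem_univ, true_and]
    rw [← SimpleGraph.iSup_adj, ← SimpleGraph.sup_adj, dec.un]
  have h2 : Disjoint (univ.filter fun y => R'.Adj x y)
      ((univ : Finset (Fin n)).biUnion fun i => univ.filter fun y => (F i).Adj x y) := by
    rw [disjoint_left]
    intro y hy hy'
    obtain ⟨i, -, hi⟩ := mem_biUnion.1 hy'
    exact dec_d1 dec (mem_filter.1 hy).2 (mem_filter.1 hi).2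
  have h3 : ((univ : Finset (Fin n)).biUnion fun i => univ.filter fun y => (F i).Adj x y).card =
      ∑ i, dg (F i) x := by
    rw [card_biUnion]
    · exact sum_congr rfl fun i _ => H29.card_nb (F i) x
    · intro i _ j _ hij
      rw [Function.onFun, disjoint_left]
      intro y hy hy'
      exact hij (dec_d2 dec (mem_filter.1 hy).2 (mem_filter.1 hy').2)
  rw [← H29.card_nb R x, ← H29.card_nb R' x, h1, card_union_of_disjoint h2, h3]

theorem cls_two (dec : Dec R R' F) {K : ℕ} (hn : n ≤ K) (hR : ∀ v, 2 * K ≤ dg R v)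
    (hR' : ∀ v, dg R' v ≤ 2 * (K - n) + 2) (x : V) :
    (univ.filter fun i => dg (F i) x ≠ 2).card ≤ 2 := by
  have h1 := dg_dec dec x
  have h2 := hR x
  have h3 := hR' x
  have h4 : ∑ i, (dg (F i) x + if dg (F i) x ≠ 2 then 1 else 0) ≤ ∑ _i : Fin n, 2 := by
    apply sum_le_sum
    intro i _
    have := (dec.lf i).2 x
    rw [← dg] at this
    split_ifs with h
    · omega
    · exact this
  rw [sum_add_distrib, ← card_filter, sum_const, card_univ, Fintype.card_fin, smul_eq_mul] at h4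
  omega

theorem cls_le (dec : Dec R R' F) (x : V) (P : V → Prop) :
    (univ.filter fun i => ∃ z, (F i).Adj x z ∧ P z).card ≤
      (univ.filter fun z => R.Adj x z ∧ P z).card := by
  apply Finset.card_le_card_of_injOn
    (fun i => if h : ∃ z, (F i).Adj x z ∧ P z then h.choose else x)
  · intro i hi
    have h := (mem_filter.1 hi).2
    simp only
    rw [dif_pos h]
    exact mem_coe.2 (mem_filter.2 ⟨mem_univ _, dec_F dec i h.choose_spec.1, h.choose_spec.2⟩)
  · intro i hi j hj hij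
    have h := (mem_filter.1 hi).2
    have h' := (mem_filter.1 hj).2
    simp only at hij
    rw [dif_pos h, dif_pos h'] at hij
    have h1 := h.choose_spec.1
    have h2 := h'.choose_spec.1
    rw [← hij] at h2
    exact dec_d2 dec h1 h2

theorem com_le (hc4 : C4free R) {x y : V} (hxy : x ≠ y) :
    (univ.filter fun z => R.Adj x z ∧ R.Adj y z).card ≤ 1 := by
  rw [card_le_one]
  intro a ha b hb
  have h1 := (mem_filter.1 ha).2
  have h2 := (mem_filter.1 hb).2
  exact hc4 x y a b hxy h1.1 h1.2 h2.1 h2.2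

/-- the class `i` is available at `x` -/
def Cnd (R' E : SimpleGraph V) (F : Fin n → SimpleGraph V) (K' : ℕ) (x : V) (i : Fin n) : Prop :=
  dg (F i) x = 2 ∧ ∀ z, (F i).Adj x z → dg R' z = 2 * K' ∧ (∀ w, ¬ (R' ⊓ E).Adj z w) ∧
    ¬ E.Adj x z

/-- the class `i` is available for `x y` -/
def I0 (R R' E : SimpleGraph V) (F : Fin n → SimpleGraph V) (K' : ℕ) (x y : V) (i : Fin n) :
    Prop := Cnd R' E F K' x i ∧ Cnd R' E F K' y i ∧
      ∀ z, ((F i).Adj x z ∨ (F i).Adj y z) → ¬ (R.Adj x z ∧ R.Adj y z)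

theorem cnd_bad (dec : Dec R R' F) {K : ℕ} (hn : n ≤ K) (hR : ∀ v, 2 * K ≤ dg R v)
    (hR' : ∀ v, dg R' v ≤ 2 * (K - n) + 2) (x : V) :
    (univ.filter fun i => ¬ Cnd R' E F (K - n) x i).card ≤
      2 + {u | R.Adj x u ∧ dg R' u ≠ 2 * (K - n)}.ncard +
        {y | R.Adj x y ∧ ∃ z, (R' ⊓ E).Adj y z}.ncard + dg E x := by
  have h1 : (univ.filter fun i => ¬ Cnd R' E F (K - n) x i) ⊆
      (((univ.filter fun i => dg (F i) x ≠ 2) ∪
        (univ.filter fun i => ∃ z, (F i).Adj x z ∧ dg R' z ≠ 2 * (K - n))) ∪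
        (univ.filter fun i => ∃ z, (F i).Adj x z ∧ ∃ w, (R' ⊓ E).Adj z w)) ∪
        (univ.filter fun i => ∃ z, (F i).Adj x z ∧ E.Adj x z) := by
    intro i hi
    have hi := (mem_filter.1 hi).2
    rw [mem_union, mem_union, mem_union]
    simp only [mem_filter, mem_univ, true_and]
    by_contra hcon
    push Not at hcon
    obtain ⟨⟨⟨h1, h2⟩, h3⟩, h4⟩ := hcon
    exact hi ⟨h1, fun z hz => ⟨h2 z hz, h3 z hz, h4 z hz⟩⟩
  have e1 : (univ.filter fun z => R.Adj x z ∧ dg R' z ≠ 2 * (K - n)).card =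
      {u | R.Adj x u ∧ dg R' u ≠ 2 * (K - n)}.ncard := by
    rw [← Set.ncard_coe_finset]
    congr 1
    ext u
    simp
  have e2 : (univ.filter fun z => R.Adj x z ∧ ∃ w, (R' ⊓ E).Adj z w).card =
      {y | R.Adj x y ∧ ∃ z, (R' ⊓ E).Adj y z}.ncard := by
    rw [← Set.ncard_coe_finset]
    congr 1
    ext u
    simp
  have e3 : (univ.filter fun z => R.Adj x z ∧ E.Adj x z).card ≤ dg E x := by
    rw [← H29.card_nb E x]
    apply card_le_card
    intro z hz
    exact mem_filter.2 ⟨mem_univ _, (mem_filter.1 hz).2.2⟩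
  have h2 := card_le_card h1
  have h3 := cls_two dec hn hR hR' x
  have h4 := cls_le dec x fun z => dg R' z ≠ 2 * (K - n)
  have h5 := cls_le dec x fun z => ∃ w, (R' ⊓ E).Adj z w
  have h6 := cls_le dec x fun z => E.Adj x z
  have h7 := card_union_le (((univ.filter fun i => dg (F i) x ≠ 2) ∪
        (univ.filter fun i => ∃ z, (F i).Adj x z ∧ dg R' z ≠ 2 * (K - n))) ∪
        (univ.filter fun i => ∃ z, (F i).Adj x z ∧ ∃ w, (R' ⊓ E).Adj z w))
        (univ.filter fun i => ∃ z, (F i).Adj x z ∧ E.Adj x z)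
  have h8 := card_union_le ((univ.filter fun i => dg (F i) x ≠ 2) ∪
        (univ.filter fun i => ∃ z, (F i).Adj x z ∧ dg R' z ≠ 2 * (K - n)))
        (univ.filter fun i => ∃ z, (F i).Adj x z ∧ ∃ w, (R' ⊓ E).Adj z w)
  have h9 := card_union_le (univ.filter fun i => dg (F i) x ≠ 2)
        (univ.filter fun i => ∃ z, (F i).Adj x z ∧ dg R' z ≠ 2 * (K - n))
  simp only [flt_card] at e1 e2 e3 h2 h3 h4 h5 h6 h7 h8 h9 ⊢
  omega

theorem i0_bad (hc4 : C4free R) (dec : Dec R R' F) {K : ℕ} (hn : n ≤ K)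
    (hR : ∀ v, 2 * K ≤ dg R v)
    (hR' : ∀ v, dg R' v ≤ 2 * (K - n) + 2) {x y : V} (hxy : x ≠ y) {a b e : ℝ}
    (ha : ∀ v, ({u | R.Adj v u ∧ dg R' u ≠ 2 * (K - n)}.ncard : ℝ) ≤ a)
    (hb : ∀ v, ({y | R.Adj v y ∧ ∃ z, (R' ⊓ E).Adj y z}.ncard : ℝ) ≤ b)
    (he : ∀ v, (dg E v : ℝ) ≤ e) :
    (n : ℝ) - 2 * (2 + a + b + e) - 2 ≤
      (univ.filter fun i => I0 R R' E F (K - n) x y i).card := by
  have h1 : (univ.filter fun i => ¬ I0 R R' E F (K - n) x y i) ⊆
      (((univ.filter fun i => ¬ Cnd R' E F (K - n) x i) ∪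
        (univ.filter fun i => ¬ Cnd R' E F (K - n) y i)) ∪
        (univ.filter fun i => ∃ z, (F i).Adj x z ∧ R.Adj y z)) ∪
        (univ.filter fun i => ∃ z, (F i).Adj y z ∧ R.Adj x z) := by
    intro i hi
    have hi := (mem_filter.1 hi).2
    rw [mem_union, mem_union, mem_union]
    simp only [mem_filter, mem_univ, true_and]
    by_contra hcon
    push Not at hcon
    obtain ⟨⟨⟨h1, h2⟩, h3⟩, h4⟩ := hcon
    refine hi ⟨h1, h2, fun z hz hz' => ?_⟩
    rcases hz with hz | hz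
    · exact h3 z hz hz'.2
    · exact h4 z hz hz'.1
  have h2 := card_le_card h1
  have h3 := cnd_bad (E := E) dec hn hR hR' x
  have h4 := cnd_bad (E := E) dec hn hR hR' y
  have h5 := (cls_le dec x fun z => R.Adj y z).trans (com_le hc4 hxy)
  have h6 := (cls_le dec y fun z => R.Adj x z).trans (com_le hc4 hxy.symm)
  have h7 := card_union_le (((univ.filter fun i => ¬ Cnd R' E F (K - n) x i) ∪
        (univ.filter fun i => ¬ Cnd R' E F (K - n) y i)) ∪
        (univ.filter fun i => ∃ z, (F i).Adj x z ∧ R.Adj y z))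
        (univ.filter fun i => ∃ z, (F i).Adj y z ∧ R.Adj x z)
  have h8 := card_union_le ((univ.filter fun i => ¬ Cnd R' E F (K - n) x i) ∪
        (univ.filter fun i => ¬ Cnd R' E F (K - n) y i))
        (univ.filter fun i => ∃ z, (F i).Adj x z ∧ R.Adj y z)
  have h9 := card_union_le (univ.filter fun i => ¬ Cnd R' E F (K - n) x i)
        (univ.filter fun i => ¬ Cnd R' E F (K - n) y i)
  have h10 := card_filter_add_card_filter_not (s := (univ : Finset (Fin n)))
    fun i => I0 R R' E F (K - n) x y i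
  rw [card_univ, Fintype.card_fin] at h10
  have h11 : n ≤ (univ.filter fun i => I0 R R' E F (K - n) x y i).card +
      ((2 + {u | R.Adj x u ∧ dg R' u ≠ 2 * (K - n)}.ncard +
        {y | R.Adj x y ∧ ∃ z, (R' ⊓ E).Adj y z}.ncard + dg E x) +
       (2 + {u | R.Adj y u ∧ dg R' u ≠ 2 * (K - n)}.ncard +
        {z | R.Adj y z ∧ ∃ w, (R' ⊓ E).Adj z w}.ncard + dg E y) + 1 + 1) := by omega
  have h12 : (n : ℝ) ≤ (univ.filter fun i => I0 R R' E F (K - n) x y i).card +
      ((2 + ({u | R.Adj x u ∧ dg R' u ≠ 2 * (K - n)}.ncard : ℝ) +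
        ({y | R.Adj x y ∧ ∃ z, (R' ⊓ E).Adj y z}.ncard : ℝ) + dg E x) +
       (2 + ({u | R.Adj y u ∧ dg R' u ≠ 2 * (K - n)}.ncard : ℝ) +
        ({z | R.Adj y z ∧ ∃ w, (R' ⊓ E).Adj z w}.ncard : ℝ) + dg E y) + 1 + 1) := by
    exact_mod_cast h11
  have := ha x
  have := ha y
  have := hb x
  have := hb y
  have := he x
  have := he y
  linarith

/-- the four neighbours -/
def Bk (F : Fin n → SimpleGraph V) (x y : V) (i : Fin n) : Finset V :=
  univ.filter fun z => (F i).Adj x z ∨ (F i).Adj y z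

theorem bk_card (dec : Dec R R' F) {K' : ℕ} {x y : V} {i : Fin n}
    (h : I0 R R' E F K' x y i) : (Bk F x y i).card = 4 := by
  have hx := h.1.1
  have hy := h.2.1.1
  rw [← H29.card_nb] at hx hy
  rw [Bk, filter_or, card_union_of_disjoint, hx, hy]
  rw [disjoint_left]
  intro z hz hz'
  have h1 := (mem_filter.1 hz).2
  have h2 := (mem_filter.1 hz').2
  exact h.2.2 z (Or.inl h1) ⟨dec_F dec i h1, dec_F dec i h2⟩

theorem bk_dj (dec : Dec R R' F) {K' : ℕ} {x y : V} {i j : Fin n}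
    (h : I0 R R' E F K' x y i) (hij : i ≠ j) : Disjoint (Bk F x y i) (Bk F x y j) := by
  rw [disjoint_left]
  intro z hz hz'
  rcases (mem_filter.1 hz).2 with h1 | h1 <;> rcases (mem_filter.1 hz').2 with h2 | h2
  · exact hij (dec_d2 dec h1 h2)
  · exact h.2.2 z (Or.inl h1) ⟨dec_F dec i h1, dec_F dec j h2⟩
  · exact h.2.2 z (Or.inr h1) ⟨dec_F dec j h2, dec_F dec i h1⟩
  · exact hij (dec_d2 dec h1 h2)

omit [Fintype V] in
theorem I0.symm {K' : ℕ} {x y : V} {i : Fin n} (h : I0 R R' E F K' x y i) :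
    I0 R R' E F K' y x i :=
  ⟨h.2.1, h.1, fun z hz hz' => h.2.2 z hz.symm hz'.symm⟩

theorem Bk_symm (F : Fin n → SimpleGraph V) (x y : V) (i : Fin n) : Bk F x y i = Bk F y x i := by
  ext z
  simp only [Bk, mem_filter, mem_univ, true_and, or_comm]

/-- classes without conflict -/
theorem kap_ex (dec : Dec R R' F) {K' t m0 C1 : ℕ} (hn : 1 ≤ n) (ht : 1 ≤ t) (Pal : Finset V)
    (hg : ∀ x y, (R' ⊓ E).Adj x y →
      t ≤ (univ.filter fun i => I0 R R' E F K' x y i ∧ Bk F x y i ⊆ Pal).card)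
    (hm0 : ∀ z, (univ.filter fun x' => R.Adj z x' ∧ ∃ w, (R' ⊓ E).Adj x' w).card ≤ m0)
    (hC : ∀ v, dg (R' ⊓ E) v ≤ C1) (hMt : 32 * (4 * (m0 * C1)) ≤ t) :
    ∃ κ : V → V → Fin n, Kap (R' ⊓ E) F κ ∧
      ∀ x y, (R' ⊓ E).Adj x y → I0 R R' E F K' x y (κ x y) ∧ Bk F x y (κ x y) ⊆ Pal := by
  obtain ⟨G, hG⟩ : ∃ G : {e : Sym2 V // e ∈ (R' ⊓ E).edgeSet} → Finset (Fin n),
    G = fun e => univ.filter fun i => ∀ x y, e.1 = s(x, y) →
      I0 R R' E F K' x y i ∧ Bk F x y i ⊆ Pal := ⟨_, rfl⟩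
  have hGe : ∀ (x y : V) (h : (R' ⊓ E).Adj x y),
      (univ.filter fun i => I0 R R' E F K' x y i ∧ Bk F x y i ⊆ Pal) =
        G ⟨s(x, y), (SimpleGraph.mem_edgeSet _).2 h⟩ := by
    intro x y h
    rw [hG]
    ext i
    simp only [mem_filter, mem_univ, true_and]
    constructor
    · rintro ⟨h1, h2⟩ u v huv
      rcases Sym2.eq_iff.1 huv with ⟨rfl, rfl⟩ | ⟨rfl, rfl⟩
      · exact ⟨h1, h2⟩
      · exact ⟨h1.symm, by rw [Bk_symm]; exact h2⟩
    · intro h1
      exact h1 x y rfl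
  have hGc : ∀ e, t ≤ (G e).card := by
    rintro ⟨e, he⟩
    induction e using Sym2.inductionOn with
    | hf x y =>
    rw [← hGe x y ((SimpleGraph.mem_edgeSet _).1 he)]
    exact hg x y ((SimpleGraph.mem_edgeSet _).1 he)
  obtain ⟨κ, hκ1, hκ2⟩ := choose_cls ht G hGc
    (fun e i e' i' => ∃ x x' z, x ∈ e.1 ∧ x' ∈ e'.1 ∧ (F i).Adj x z ∧ (F i').Adj x' z)
    (fun e i e' i' h => by
      obtain ⟨x, x', z, h1, h2, h3, h4⟩ := h
      exact ⟨x', x, z, h2, h1, h4, h3⟩)
    ((4 * (m0 * C1) : ℕ) : ℝ)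
    (by
      rintro ⟨e, he⟩ i hi
      induction e using Sym2.inductionOn with
      | hf x y =>
      rw [← hGe x y ((SimpleGraph.mem_edgeSet _).1 he)] at hi
      have hi := (mem_filter.1 hi).2
      obtain ⟨T, hT⟩ : ∃ T : Finset (V × V × V), T = (Bk F x y i).biUnion fun z =>
        (univ.filter fun x' => R.Adj z x' ∧ ∃ w, (R' ⊓ E).Adj x' w).biUnion fun x' =>
          (univ.filter fun y' => (R' ⊓ E).Adj x' y').image fun y' => (z, x', y') := ⟨_, rfl⟩
      have hTc : T.card ≤ 4 * (m0 * C1) := by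
        rw [hT]
        refine (card_biUnion_le_card_mul _ _ (m0 * C1) fun z _ => ?_).trans
          (Nat.mul_le_mul_right _ (bk_card dec hi.1).le)
        refine (card_biUnion_le_card_mul _ _ C1 fun x' _ => ?_).trans
          (Nat.mul_le_mul_right _ (hm0 z))
        refine card_image_le.trans ?_
        rw [flt_card]
        exact hC x'
      have hle : (univ.filter fun p : {e : Sym2 V // e ∈ (R' ⊓ E).edgeSet} × Fin n =>
          (⟨s(x, y), he⟩ : {e : Sym2 V // e ∈ (R' ⊓ E).edgeSet}) ≠ p.1 ∧ p.2 ∈ G p.1 ∧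
          ∃ x_1 x' z, x_1 ∈ s(x, y) ∧ x' ∈ p.1.1 ∧ (F i).Adj x_1 z ∧
            (F p.2).Adj x' z).card ≤ T.card := by
        have hex : ∀ p ∈ (univ.filter fun p : {e : Sym2 V // e ∈ (R' ⊓ E).edgeSet} × Fin n =>
            (⟨s(x, y), he⟩ : {e : Sym2 V // e ∈ (R' ⊓ E).edgeSet}) ≠ p.1 ∧ p.2 ∈ G p.1 ∧
            ∃ x_1 x' z, x_1 ∈ s(x, y) ∧ x' ∈ p.1.1 ∧ (F i).Adj x_1 z ∧ (F p.2).Adj x' z),
            ∃ r : V × V × V, r ∈ T ∧ p.1.1 = s(r.2.1, r.2.2) ∧ (F p.2).Adj r.2.1 r.1 := by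
          rintro ⟨⟨e', he'⟩, i'⟩ hp
          obtain ⟨-, -, x1, x', z, hx1, hx', hz1, hz2⟩ := (mem_filter.1 hp).2
          simp only at hx' hz2
          obtain ⟨y', rfl⟩ := Sym2.mem_iff_exists.1 hx'
          have hxy' := (SimpleGraph.mem_edgeSet _).1 he'
          refine ⟨(z, x', y'), ?_, rfl, hz2⟩
          rw [hT, mem_biUnion]
          refine ⟨z, ?_, ?_⟩
          · rw [Bk, mem_filter]
            refine ⟨mem_univ _, ?_⟩
            rcases Sym2.mem_iff.1 hx1 with rfl | rfl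
            · exact Or.inl hz1
            · exact Or.inr hz1
          · rw [mem_biUnion]
            refine ⟨x', mem_filter.2 ⟨mem_univ _, (dec_F dec i' hz2).symm, y', hxy'⟩, ?_⟩
            exact mem_image.2 ⟨y', mem_filter.2 ⟨mem_univ _, hxy'⟩, rfl⟩
        have : Nonempty V := ⟨x⟩
        choose! r hr using hex
        apply Finset.card_le_card_of_injOn r
        · intro p hp
          exact mem_coe.2 (hr p hp).1
        · rintro ⟨⟨p1, hp1⟩, p2⟩ hp ⟨⟨p1', hp1'⟩, p2'⟩ hp' heq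
          have h1 := (hr _ hp).2
          have h2 := (hr _ hp').2
          rw [← heq] at h2
          simp only at h1 h2
          have h3 : p1 = p1' := h1.1.trans h2.1.symm
          have h4 : p2 = p2' := dec_d2 dec h1.2 h2.2
          subst h3
          subst h4
          rfl
      exact_mod_cast hle.trans hTc)
    (by exact_mod_cast hMt)
  obtain ⟨g, hg'⟩ : ∃ g : Sym2 V → Fin n, g = fun e =>
    if h : e ∈ (R' ⊓ E).edgeSet then κ ⟨e, h⟩ else ⟨0, hn⟩ := ⟨_, rfl⟩
  have hgk : ∀ x y (h : (R' ⊓ E).Adj x y),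
      g s(x, y) = κ ⟨s(x, y), (SimpleGraph.mem_edgeSet _).2 h⟩ := by
    intro x y h
    rw [hg']
    simp only
    rw [dif_pos ((SimpleGraph.mem_edgeSet _).2 h)]
  have hgood : ∀ x y, (R' ⊓ E).Adj x y →
      I0 R R' E F K' x y (g s(x, y)) ∧ Bk F x y (g s(x, y)) ⊆ Pal := by
    intro x y h
    have h1 := hκ1 ⟨s(x, y), (SimpleGraph.mem_edgeSet _).2 h⟩
    rw [← hgk x y h, ← hGe x y h] at h1
    exact (mem_filter.1 h1).2
  refine ⟨fun x y => g s(x, y), ?_, hgood⟩
  constructor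
  · intro u v
    rw [Sym2.eq_swap]
  · exact dec.lf
  · intro i u v h1 h2
    exact dec_d1 dec h1.1 h2
  · intro x y z w hxy hz
    exact ((hgood x y hxy).1.1.2 z hz).2.1 w
  · intro x y hxy
    exact (hgood x y hxy).1.1.1
  · intro x y x' y' z hxy hxy' hz hz'
    by_cases he : s(x, y) = s(x', y')
    · rcases Sym2.eq_iff.1 he with ⟨rfl, rfl⟩ | ⟨rfl, rfl⟩
      · exact ⟨rfl, rfl⟩
      · exfalso
        rw [← he] at hz'
        exact (hgood x y hxy).1.2.2 z (Or.inl hz) ⟨dec_F dec _ hz, dec_F dec _ hz'⟩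
    · exfalso
      rw [hgk x y hxy] at hz
      rw [hgk x' y' hxy'] at hz'
      refine hκ2 ⟨s(x, y), (SimpleGraph.mem_edgeSet _).2 hxy⟩
        ⟨s(x', y'), (SimpleGraph.mem_edgeSet _).2 hxy'⟩ ?_ ?_
      · intro h
        exact he (congrArg Subtype.val h)
      · exact ⟨x, x', z, Sym2.mem_mk_left _ _, Sym2.mem_mk_left _ _, hz, hz'⟩

end count

end Pool.Agent.C4N.H32
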